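import Pool.Agent.Lib_helper45.REll.CRing

/-!
# Basic API for inner products and homogeneous parts
-/

open scoped BigOperators ComplexConjugate
open Polynomial

namespace Pool.Agent.REll
variable {F : Type} [Field F]

namespace CF

@[simp] theorem allOne_apply (V : Type) [AddCommGroup V] [Module F V] [Finite V]
    (g : V ≃ₗ[F] V) : (allOne : CF F) V g = 1 := rfl

theorem part_apply (n : ℕ) (f : CF F) (V : Type) [AddCommGroup V] [Module F V] [Finite V]
    (g : V ≃ₗ[F] V) : part n f V g = if Module.finrank F V = n then f V g else 0 := rfl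

theorem part_std (n : ℕ) (f : CF F) [Finite F] (g : G F n) :
    part n f (Fin n → F) g = f (Fin n → F) g := by
  rw [part_apply, if_pos (by simp)]

theorem isHom_part (n : ℕ) (f : CF F) : (part n f).IsHom n := by
  intro V _ _ _ g h
  rw [part_apply, if_neg h]

theorem IsHom.part_eq {n : ℕ} {f : CF F} (hf : f.IsHom n) : part n f = f := by
  ext V _ _ _ g
  rw [part_apply]
  split_ifs with h
  · rfl
  · exact (hf V g h).symm

/-- conjugating `g` to the standard space -/
noncomputable def toStd {n : ℕ} {V : Type} [AddCommGroup V] [Module F V] [Finite V]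
    (e : V ≃ₗ[F] (Fin n → F)) (g : V ≃ₗ[F] V) : G F n := (e.symm.trans g).trans e

theorem apply_toStd {n : ℕ} [Finite F] {V : Type} [AddCommGroup V] [Module F V] [Finite V]
    (e : V ≃ₗ[F] (Fin n → F)) (g : V ≃ₗ[F] V) (f : CF F) :
    f V g = f (Fin n → F) (toStd e g) := by
  apply f.inv' _ _ e
  intro v
  simp [toStd]

theorem exists_std {n : ℕ} [Finite F] (V : Type) [AddCommGroup V] [Module F V] [Finite V]
    (h : Module.finrank F V = n) : Nonempty (V ≃ₗ[F] (Fin n → F)) := by
  have : Module.Finite F V := Module.Finite.of_finite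
  exact ⟨LinearEquiv.ofFinrankEq V (Fin n → F) (by simp [h])⟩

theorem hom_ext [Finite F] {n : ℕ} {f h : CF F} (hf : f.IsHom n) (hh : h.IsHom n)
    (H : ∀ g : G F n, f (Fin n → F) g = h (Fin n → F) g) : f = h := by
  ext V _ _ _ g
  by_cases hV : Module.finrank F V = n
  · obtain ⟨e⟩ := exists_std (F := F) V hV
    rw [apply_toStd e g f, apply_toStd e g h, H]
  · rw [hf V g hV, hh V g hV]

theorem IsHom.add {n : ℕ} {f h : CF F} (hf : f.IsHom n) (hh : h.IsHom n) : (f + h).IsHom n := by
  intro V _ _ _ g hV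
  simp [hf V g hV, hh V g hV]

theorem IsHom.smul {n : ℕ} {f : CF F} (hf : f.IsHom n) (c : ℂ) : (c • f).IsHom n := by
  intro V _ _ _ g hV
  simp [hf V g hV]

theorem IsHom.zero {n : ℕ} : (0 : CF F).IsHom n := by
  intro V _ _ _ g hV
  simp

theorem IsHom.neg {n : ℕ} {f : CF F} (hf : f.IsHom n) : (-f).IsHom n := by
  intro V _ _ _ g hV
  simp [hf V g hV]

theorem IsHom.sub {n : ℕ} {f h : CF F} (hf : f.IsHom n) (hh : h.IsHom n) : (f - h).IsHom n := by
  intro V _ _ _ g hV
  simp [hf V g hV, hh V g hV]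

theorem IsHom.sum {n : ℕ} {ι : Type*} (s : Finset ι) (f : ι → CF F)
    (hf : ∀ i ∈ s, (f i).IsHom n) : (∑ i ∈ s, f i).IsHom n := by
  intro V _ _ _ g hV
  rw [sum_apply]
  exact Finset.sum_eq_zero fun i hi => hf i hi V g hV

theorem isHom_one : (1 : CF F).IsHom 0 := by
  intro V _ _ _ g hV
  rw [one_apply, if_neg hV]

theorem IsHom.mul {m n : ℕ} {f h : CF F} (hf : f.IsHom m) (hh : h.IsHom n) :
    (f * h).IsHom (m + n) := by
  intro V _ _ _ g hV
  rw [mul_apply]
  apply finsum_eq_zero_of_forall_eq_zero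
  intro W
  by_cases h1 : Module.finrank F W.1 = m
  · by_cases h2 : Module.finrank F (V ⧸ W.1) = n
    · have : Module.Finite F V := Module.Finite.of_finite
      exact absurd (by rw [← Submodule.finrank_quotient_add_finrank W.1]; omega) hV
    · rw [hh _ _ h2, mul_zero]
  · rw [hf _ _ h1, zero_mul]

variable [Finite F]

theorem ip_eq (n : ℕ) (f h : CF F) : ip n f h =
    gip (fun g : G F n => f (Fin n → F) g) (fun g : G F n => h (Fin n → F) g) := rfl

theorem ip_add_left (n : ℕ) (f f' h : CF F) : ip n (f + f') h = ip n f h + ip n f' h := by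
  unfold ip
  rw [← add_div, ← finsum_add_distrib (Set.toFinite _) (Set.toFinite _)]
  simp [add_mul]

theorem ip_smul_left (n : ℕ) (c : ℂ) (f h : CF F) : ip n (c • f) h = c * ip n f h := by
  unfold ip
  rw [← mul_div_assoc, mul_finsum _ _]
  simp [mul_assoc]

/-- `ip n · h` as a linear map -/
noncomputable def ipL (n : ℕ) (h : CF F) : CF F →ₗ[ℂ] ℂ where
  toFun f := ip n f h
  map_add' f f' := ip_add_left n f f' h
  map_smul' c f := ip_smul_left n c f h

theorem ip_conj (n : ℕ) (f h : CF F) : conj (ip n f h) = ip n h f := by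
  have := Fintype.ofFinite (G F n)
  unfold ip
  rw [finsum_eq_sum_of_fintype, finsum_eq_sum_of_fintype, map_div₀, map_sum]
  simp [mul_comm]

theorem ip_sum_left (n : ℕ) {ι : Type*} (s : Finset ι) (f : ι → CF F) (h : CF F) :
    ip n (∑ i ∈ s, f i) h = ∑ i ∈ s, ip n (f i) h := map_sum (ipL n h) f s

theorem ip_sub_left (n : ℕ) (f f' h : CF F) : ip n (f - f') h = ip n f h - ip n f' h :=
  map_sub (ipL n h) f f'

theorem ip_neg_left (n : ℕ) (f h : CF F) : ip n (-f) h = - ip n f h :=
  map_neg (ipL n h) f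

theorem ip_zero_left (n : ℕ) (h : CF F) : ip n 0 h = 0 :=
  map_zero (ipL n h)

theorem ip_add_right (n : ℕ) (f f' h : CF F) : ip n h (f + f') = ip n h f + ip n h f' := by
  rw [← ip_conj, ip_add_left, map_add, ip_conj, ip_conj]

theorem ip_smul_right (n : ℕ) (c : ℂ) (f h : CF F) : ip n h (c • f) = conj c * ip n h f := by
  rw [← ip_conj, ip_smul_left, map_mul, ip_conj]

theorem ip_sum_right (n : ℕ) {ι : Type*} (s : Finset ι) (f : ι → CF F) (h : CF F) :
    ip n h (∑ i ∈ s, f i) = ∑ i ∈ s, ip n h (f i) := by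
  rw [← ip_conj, ip_sum_left, map_sum]
  simp [ip_conj]

theorem ip_sub_right (n : ℕ) (f f' h : CF F) : ip n h (f - f') = ip n h f - ip n h f' := by
  rw [← ip_conj, ip_sub_left, map_sub, ip_conj, ip_conj]

theorem ip_neg_right (n : ℕ) (f h : CF F) : ip n h (-f) = - ip n h f := by
  rw [← ip_conj, ip_neg_left, map_neg, ip_conj]

theorem ip_part_left (n : ℕ) (f h : CF F) : ip n (part n f) h = ip n f h := by
  unfold ip; simp [part_std]

theorem ip_part_right (n : ℕ) (f h : CF F) : ip n f (part n h) = ip n f h := by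
  unfold ip; simp [part_std]

theorem ip_eq_zero_of_hom {m n : ℕ} (hmn : m ≠ n) {f : CF F} (hf : f.IsHom m) (h : CF F) :
    ip n f h = 0 := by
  unfold ip
  have : ∀ g : G F n, f (Fin n → F) g * conj (h (Fin n → F) g) = 0 := by
    intro g
    rw [hf _ _ (by simpa using hmn.symm), zero_mul]
  simp [this]

theorem ip_self (n : ℕ) (f : CF F) : ∃ r : ℝ, 0 ≤ r ∧ ip n f f = r := by
  have := Fintype.ofFinite (G F n)
  refine ⟨(∑ g : G F n, ‖f (Fin n → F) g‖ ^ 2) / Nat.card (G F n), by positivity, ?_⟩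
  unfold ip
  rw [finsum_eq_sum_of_fintype]
  push_cast
  congr 1
  apply Finset.sum_congr rfl
  intro g _
  rw [Complex.mul_conj, Complex.normSq_eq_norm_sq]
  push_cast; rfl

theorem ip_self_eq_zero {n : ℕ} {f : CF F} (hf : f.IsHom n) (h : ip n f f = 0) : f = 0 := by
  have := Fintype.ofFinite (G F n)
  apply hom_ext hf IsHom.zero
  intro g
  unfold ip at h
  rw [finsum_eq_sum_of_fintype] at h
  have hc : (Nat.card (G F n) : ℂ) ≠ 0 := by
    exact_mod_cast Nat.card_pos.ne'
  rw [div_eq_zero_iff] at h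
  rcases h with h | h
  · have h' : ∑ g : G F n, ‖f (Fin n → F) g‖ ^ 2 = 0 := by
      have : ((∑ g : G F n, ‖f (Fin n → F) g‖ ^ 2 : ℝ) : ℂ) = 0 := by
        rw [← h]
        push_cast
        apply Finset.sum_congr rfl
        intro g _
        rw [Complex.mul_conj, Complex.normSq_eq_norm_sq]
        push_cast; rfl
      exact_mod_cast this
    rw [Finset.sum_eq_zero_iff_of_nonneg (fun _ _ => by positivity)] at h'
    have := h' g (Finset.mem_univ _)
    simpa using this
  · exact absurd h hc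

end CF
end Pool.Agent.REll
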