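import Mathlib

/-!
# Abstract positive self-adjoint Hopf algebras (Zelevinsky), definitions
-/

open scoped BigOperators

namespace Pool.Agent.REll

universe u v

/-- Positive self-adjoint Hopf algebra data: a commutative ring `A` with a `ℤ`-basis `b`
(think: irreducible characters), nonnegative structure constants `c i j k`
(multiplicity of `k` in `i * j`) and the Hopf axiom in coordinates. -/
structure PSH (I : Type u) (A : Type v) [CommRing A] where
  b : Module.Basis I ℤ A
  deg : I → ℕ
  one : I
  c : I → I → I → ℕ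
  b_one : b one = 1
  deg_one : deg one = 0
  eq_one : ∀ i, deg i = 0 → i = one
  fin : ∀ n, {i | deg i = n}.Finite
  mul : ∀ i j, b i * b j = ∑ᶠ k, (c i j k : ℤ) • b k
  c_deg : ∀ i j k, c i j k ≠ 0 → deg k = deg i + deg j
  hopf : ∀ i j k l, ∑ᶠ m, c i j m * c k l m =
    ∑ᶠ x : I × I × I × I, c x.1 x.2.1 i * c x.2.2.1 x.2.2.2 j * c x.1 x.2.2.1 k * c x.2.1 x.2.2.2 l

namespace PSH
variable {I : Type u} {A : Type v} [CommRing A] (P : PSH I A)

/-- the inner product for which the basis is orthonormal -/
noncomputable def inn (x y : A) : ℤ := (P.b.repr x).sum fun i a => a * P.b.repr y i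

/-- `r` is a primitive (= cuspidal) basis element -/
def PrimIdx (r : I) : Prop := 0 < P.deg r ∧ ∀ i j, P.c i j r ≠ 0 → i = P.one ∨ j = P.one

/-- `x` is orthogonal to all products of elements of positive degree -/
def Prim (x : A) : Prop := ∀ i j, i ≠ P.one → j ≠ P.one → P.inn x (P.b i * P.b j) = 0

end PSH
end Pool.Agent.REll
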