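import Pool.Agent.Lib_helper45.REll.IrrCF
import Pool.Agent.Lib_helper45.REll.PSH

/-!
# The PSH algebra of the groups `GL_n(F)`
-/

open scoped BigOperators ComplexConjugate
open Polynomial

namespace Pool.Agent.REll
variable {F : Type} [Field F]

open CF

theorem coprod_congr {A B A' B' : Type} [AddCommGroup A] [Module F A] [Finite A]
    [AddCommGroup B] [Module F B] [Finite B] [AddCommGroup A'] [Module F A'] [Finite A']
    [AddCommGroup B'] [Module F B'] [Finite B'] (k : CF F)
    (α : A ≃ₗ[F] A) (β : B ≃ₗ[F] B) (α' : A' ≃ₗ[F] A') (β' : B' ≃ₗ[F] B')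
    (e : A ≃ₗ[F] A') (he : ∀ v, e (α v) = α' (e v))
    (f : B ≃ₗ[F] B') (hf : ∀ v, f (β v) = β' (f v)) :
    coprod k α β = coprod k α' β' := by
  unfold coprod
  congr 1
  · apply finsum_eq_of_bijective (LinearEquiv.arrowCongr f e)
      (LinearEquiv.arrowCongr f e).bijective
    intro u
    apply k.inv' _ _ (f.prodCongr e)
    rintro ⟨b, a⟩
    simp [he, hf]
  · congr 1
    exact Nat.card_congr (LinearEquiv.arrowCongr f e).toEquiv

variable [Finite F]

theorem ip_mul' (a b : ℕ) (x y k : CF F) (hx : x.IsHom a) :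
    ip (a + b) (x * y) k = (∑ᶠ α : G F a, ∑ᶠ β : G F b,
      x (Fin a → F) α * y (Fin b → F) β * conj (coprod k α β)) /
        (Nat.card (G F a) * Nat.card (G F b)) := by
  rw [ip_mul, Finset.sum_eq_single a]
  · let φ : ℕ → ℂ := fun m => (∑ᶠ α : G F a, ∑ᶠ β : G F m,
      x (Fin a → F) α * y (Fin m → F) β * conj (coprod k α β)) /
        (Nat.card (G F a) * Nat.card (G F m))
    show φ (a + b - a) = φ b
    rw [Nat.add_sub_cancel_left]
  · intro a' _ ha
    have : ∀ α : G F a', ∀ β : G F (a + b - a'),
        x (Fin a' → F) α * y (Fin (a + b - a') → F) β * conj (coprod k α β) = 0 := by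
      intro α β
      rw [hx _ α (by simpa using ha)]; simp
    simp [this]
  · intro h
    exfalso; apply h; simp

theorem coprod_expand_std (k : CF F) (a b : ℕ) (α : G F a) (β : G F b) :
    coprod k α β = ∑ x ∈ irrF F a, ∑ y ∈ irrF F b,
      conj (ip (a + b) (x * y) k) * x (Fin a → F) α * y (Fin b → F) β := by
  have h1 : ∀ (γ : G F b) (α : G F a), coprod k α γ = ∑ x ∈ irrF F a,
      gip (fun α' : G F a => coprod k α' γ) (res a x) * x (Fin a → F) α := by
    intro γ α
    have hc : ∀ (x g : G F a), coprod k (x * g * x⁻¹) γ = coprod k g γ := by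
      intro x g
      symm
      apply coprod_congr k _ _ _ _ x _ (LinearEquiv.refl F _) _
      · intro v; simp [LinearEquiv.mul_apply]
      · intro v; simp
    have h2 := irr_complete a (ofFun a (fun α' => coprod k α' γ) hc)
    have h3 : part a (ofFun a (fun α' => coprod k α' γ) hc) (Fin a → F) α = coprod k α γ := by
      rw [part_std, ofFun_std]
    rw [← h3, h2, CF.sum_apply]
    apply Finset.sum_congr rfl
    intro x _
    rw [CF.smul_apply, ip_eq]
    congr 2
    ext g
    exact ofFun_std _ _ _ g
  rw [h1]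
  have h2 : ∀ x ∈ irrF F a, gip (fun α' : G F a => coprod k α' β) (res a x) =
      ∑ y ∈ irrF F b, conj (ip (a + b) (x * y) k) * y (Fin b → F) β := by
    intro x hx
    let ψ : G F b → ℂ := fun γ => gip (fun α' : G F a => coprod k α' γ) (res a x)
    have hc : ∀ (z g : G F b), ψ (z * g * z⁻¹) = ψ g := by
      intro z g
      show gip _ _ = gip _ _
      congr 1
      ext α'
      symm
      apply coprod_congr k _ _ _ _ (LinearEquiv.refl F _) _ z _
      · intro v; simp
      · intro v; simp [LinearEquiv.mul_apply]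
    have h2 := irr_complete b (ofFun b ψ hc)
    have h3 : part b (ofFun b ψ hc) (Fin b → F) β = ψ β := by
      rw [part_std, ofFun_std]
    show ψ β = _
    rw [← h3, h2, CF.sum_apply]
    apply Finset.sum_congr rfl
    intro y _
    rw [CF.smul_apply]
    congr 1
    rw [ip_mul' a b x y k (mem_irrF.1 hx).1]
    have hfa := Fintype.ofFinite (G F a)
    have hfb := Fintype.ofFinite (G F b)
    unfold ip
    simp only [finsum_eq_sum_of_fintype, ofFun_std, map_div₀, map_sum, map_mul, Complex.conj_conj,
      map_natCast, ψ, gip, res]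
    rw [Finset.sum_comm, Finset.sum_div, Finset.sum_div]
    apply Finset.sum_congr rfl
    intro γ _
    rw [Finset.sum_div, Finset.sum_mul, Finset.sum_div, Finset.sum_div]
    apply Finset.sum_congr rfl
    intro α' _
    field_simp
  apply Finset.sum_congr rfl
  intro x hx
  rw [h2 x hx, Finset.sum_mul]
  apply Finset.sum_congr rfl
  intro y _
  ring

theorem coprod_expand (k : CF F) {A B : Type} [AddCommGroup A] [Module F A] [Finite A]
    [AddCommGroup B] [Module F B] [Finite B] (α : A ≃ₗ[F] A) (β : B ≃ₗ[F] B) (a b : ℕ)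
    (ha : Module.finrank F A = a) (hb : Module.finrank F B = b) :
    coprod k α β = ∑ x ∈ irrF F a, ∑ y ∈ irrF F b,
      conj (ip (a + b) (x * y) k) * x A α * y B β := by
  obtain ⟨e⟩ := exists_std (F := F) A ha
  obtain ⟨f⟩ := exists_std (F := F) B hb
  rw [coprod_congr k α β (toStd e α) (toStd f β) e (by simp [toStd]) f (by simp [toStd]),
    coprod_expand_std]
  apply Finset.sum_congr rfl
  intro x _
  apply Finset.sum_congr rfl
  intro y _
  rw [apply_toStd e α x, apply_toStd f β y]

end Pool.Agent.REll
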