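import Pool.Agent.Lib_helper45.REll.Bridge

/-!
# The PSH algebra of the groups `GL_n(F)`, part 2: the instance
-/

open scoped BigOperators ComplexConjugate
open Polynomial

namespace Pool.Agent.REll
variable (F : Type) [Field F] [Finite F]

open CF

/-- index set of all irreducible characters -/
structure Idx : Type 1 where
  d : ℕ
  χ : CF F
  h : χ ∈ Irr F d

variable {F}

/-- the character of an index -/
def ch (i : Idx F) : CF F := i.2

theorem ch_irr (i : Idx F) : ch i ∈ Irr F i.1 := i.3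

theorem ch_hom (i : Idx F) : (ch i).IsHom i.1 := i.3.1

theorem irr_unique_deg {n m : ℕ} {χ : CF F} (h : χ ∈ Irr F n) (h' : χ ∈ Irr F m) : n = m := by
  classical
  by_contra hne
  have h1 := ip_irr h h
  rw [if_pos rfl, ip_eq_zero_of_hom (fun h => hne h.symm) h'.1] at h1
  exact zero_ne_one h1

theorem ch_injective : Function.Injective (ch : Idx F → CF F) := by
  rintro ⟨n, χ, h⟩ ⟨m, ψ, h'⟩ hh
  change χ = ψ at hh
  subst hh
  obtain rfl := irr_unique_deg h h'
  rfl

open Classical in
theorem ip_ch (i j : Idx F) : ip j.1 (ch i) (ch j) = if i = j then 1 else 0 := by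
  by_cases hd : i.1 = j.1
  · rw [← hd, ip_irr (ch_irr i) (hd ▸ ch_irr j)]
    by_cases h : i = j
    · subst h; simp
    · rw [if_neg h, if_neg (fun h' => h (ch_injective h'))]
  · rw [ip_eq_zero_of_hom hd (ch_hom i), if_neg]
    rintro rfl
    exact hd rfl

/-- indices of degree `n` -/
noncomputable def idxF (n : ℕ) : Finset (Idx F) := by
  classical
  exact (irrF F n).attach.image (fun χ => (⟨n, χ.1, mem_irrF.1 χ.2⟩ : Idx F))

theorem mem_idxF {n : ℕ} {i : Idx F} : i ∈ idxF n ↔ i.1 = n := by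
  classical
  unfold idxF
  rw [Finset.mem_image]
  constructor
  · rintro ⟨χ, _, rfl⟩; rfl
  · rintro rfl
    exact ⟨⟨i.2, mem_irrF.2 i.3⟩, Finset.mem_attach _ _, rfl⟩

theorem sum_idxF {M : Type*} [AddCommMonoid M] (n : ℕ) (φ : CF F → M) :
    ∑ i ∈ idxF n, φ (ch i) = ∑ χ ∈ irrF F n, φ χ := by
  classical
  symm
  apply Finset.sum_bij (fun χ hχ => (⟨n, χ, mem_irrF.1 hχ⟩ : Idx F))
  · intro χ hχ
    exact mem_idxF.2 rfl
  · intro χ hχ ψ hψ h
    exact congrArg ch h
  · intro i hi
    rw [mem_idxF] at hi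
    subst hi
    exact ⟨i.2, mem_irrF.2 i.3, rfl⟩
  · intro χ hχ; rfl

/-- indices of degree `≤ n` -/
noncomputable def idxLE (n : ℕ) : Finset (Idx F) := by
  classical
  exact (Finset.range (n + 1)).biUnion (fun m => idxF m)

theorem mem_idxLE {n : ℕ} {i : Idx F} : i ∈ idxLE n ↔ i.1 ≤ n := by
  classical
  unfold idxLE
  rw [Finset.mem_biUnion]
  constructor
  · rintro ⟨m, hm, hi⟩
    rw [mem_idxF] at hi
    rw [Finset.mem_range] at hm
    omega
  · intro h
    exact ⟨i.1, Finset.mem_range.2 (by omega), mem_idxF.2 rfl⟩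

theorem exists_mult (i j k : Idx F) : ∃ c : ℕ, ip k.1 (ch i * ch j) (ch k) = c := by
  by_cases h : i.1 + j.1 = k.1
  · have hk : ch k ∈ Irr F (i.1 + j.1) := h ▸ ch_irr k
    obtain ⟨c, hc⟩ := mult_nat (ch_irr i) (ch_irr j) hk
    exact ⟨c, by rw [← h]; exact hc⟩
  · exact ⟨0, by rw [ip_eq_zero_of_hom h ((ch_hom i).mul (ch_hom j))]; simp⟩

/-- multiplicity of `k` in `i * j` -/
noncomputable def mc (i j k : Idx F) : ℕ := Classical.choose (exists_mult i j k)

theorem mc_spec (i j k : Idx F) : ip k.1 (ch i * ch j) (ch k) = mc i j k :=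
  Classical.choose_spec (exists_mult i j k)

theorem mc_deg {i j k : Idx F} (h : mc i j k ≠ 0) : k.1 = i.1 + j.1 := by
  by_contra hd
  apply h
  have h1 := mc_spec i j k
  rw [ip_eq_zero_of_hom (Ne.symm hd) ((ch_hom i).mul (ch_hom j))] at h1
  exact_mod_cast h1.symm

theorem ch_mul (i j : Idx F) :
    ch i * ch j = ∑ k ∈ idxF (i.1 + j.1), (mc i j k : ℂ) • ch k := by
  have h := irr_complete (i.1 + j.1) (ch i * ch j)
  rw [IsHom.part_eq ((ch_hom i).mul (ch_hom j))] at h
  rw [h, ← sum_idxF]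
  apply Finset.sum_congr rfl
  intro k hk
  rw [mem_idxF] at hk
  rw [← mc_spec, hk]

theorem coprod_ch (k : Idx F) (M : ℕ) (hM : k.1 ≤ M)
    {A B : Type} [AddCommGroup A] [Module F A] [Finite A]
    [AddCommGroup B] [Module F B] [Finite B] (α : A ≃ₗ[F] A) (β : B ≃ₗ[F] B) :
    coprod (ch k) α β = ∑ x ∈ idxLE M, ∑ y ∈ idxLE M, (mc x y k : ℂ) * ch x A α * ch y B β := by
  classical
  set a := Module.finrank F A with ha
  set b := Module.finrank F B with hb
  by_cases hab : a + b = k.1
  · rw [coprod_expand (ch k) α β a b rfl rfl]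
    rw [← sum_idxF a (fun x => ∑ y ∈ irrF F b,
      conj (ip (a + b) (x * y) (ch k)) * x A α * y B β)]
    have h1 : (idxF a : Finset (Idx F)) ⊆ idxLE M := by
      intro i hi; rw [mem_idxF] at hi; rw [mem_idxLE]; omega
    have h2 : (idxF b : Finset (Idx F)) ⊆ idxLE M := by
      intro i hi; rw [mem_idxF] at hi; rw [mem_idxLE]; omega
    rw [← Finset.sum_subset h1]
    · apply Finset.sum_congr rfl
      intro x hx
      rw [← sum_idxF b (fun y => conj (ip (a + b) (ch x * y) (ch k)) * ch x A α * y B β)]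
      rw [← Finset.sum_subset h2]
      · apply Finset.sum_congr rfl
        intro y hy
        rw [hab, mc_spec]; simp
      · intro y _ hy
        rw [mem_idxF] at hy
        rw [ch_hom y B β (fun h => hy h.symm), mul_zero]
    · intro x _ hx
      rw [mem_idxF] at hx
      apply Finset.sum_eq_zero
      intro y _
      rw [ch_hom x A α (fun h => hx h.symm)]; simp
  · have h0 : coprod (ch k) α β = 0 := by
      unfold coprod
      have : ∀ u : B →ₗ[F] A, ch k (B × A) (tri α β u) = 0 := by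
        intro u
        apply ch_hom k
        have : Module.Finite F A := Module.Finite.of_finite
        have : Module.Finite F B := Module.Finite.of_finite
        rw [Module.finrank_prod]
        omega
      simp [this]
    rw [h0]
    symm
    apply Finset.sum_eq_zero
    intro x _
    apply Finset.sum_eq_zero
    intro y _
    by_cases hx : x.1 = a
    · by_cases hy : y.1 = b
      · have : mc x y k = 0 := by
          by_contra h
          have := mc_deg h
          omega
        rw [this]; simp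
      · rw [ch_hom y B β (fun h => hy h.symm), mul_zero]
    · rw [ch_hom x A α (fun h => hx h.symm)]; simp

/-- the Hopf axiom, left side -/
theorem hopf_left (i j k l : Idx F) (N : ℕ) (hN : N = i.1 + j.1) :
    ip N (ch i * ch j) (ch k * ch l) = ∑ m ∈ idxF N, (mc i j m : ℂ) * mc k l m := by
  rw [ip_expand, ← sum_idxF N (fun χ => ip N (ch i * ch j) χ * conj (ip N (ch k * ch l) χ))]
  apply Finset.sum_congr rfl
  intro m hm
  rw [mem_idxF] at hm
  rw [← hm, mc_spec, mc_spec]; simp

/-- the restriction of a product, expanded -/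
theorem coprod_ch_mul (k l : Idx F) (M : ℕ) (hk : k.1 ≤ M) (hl : l.1 ≤ M)
    {A B : Type} [AddCommGroup A] [Module F A] [Finite A]
    [AddCommGroup B] [Module F B] [Finite B] (α : A ≃ₗ[F] A) (β : B ≃ₗ[F] B) :
    coprod (ch k * ch l) α β =
      ∑ t ∈ (idxLE M ×ˢ idxLE M) ×ˢ (idxLE M ×ˢ idxLE M),
        (mc t.1.1 t.1.2 k : ℂ) * mc t.2.1 t.2.2 l * (ch t.1.1 * ch t.2.1) A α
          * (ch t.1.2 * ch t.2.2) B β := by
  have hfa := Fintype.ofFinite (Stab α)
  have hfb := Fintype.ofFinite (Stab β)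
  rw [coprod_mul]
  simp only [finsum_eq_sum_of_fintype, mul_apply]
  have h1 : ∀ (W' : Stab α) (W'' : Stab β),
      coprod (ch k) (sub α W') (sub β W'') * coprod (ch l) (quo α W') (quo β W'') =
      ∑ t ∈ (idxLE M ×ˢ idxLE M) ×ˢ (idxLE M ×ˢ idxLE M),
        ((mc t.1.1 t.1.2 k : ℂ) * ch t.1.1 W'.1 (sub α W') * ch t.1.2 W''.1 (sub β W'')) *
        ((mc t.2.1 t.2.2 l : ℂ) * ch t.2.1 (A ⧸ W'.1) (quo α W')
          * ch t.2.2 (B ⧸ W''.1) (quo β W'')) := by
    intro W' W''
    rw [coprod_ch k M hk, coprod_ch l M hl, ← Finset.sum_product', ← Finset.sum_product',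
      Finset.sum_product (s := idxLE M ×ˢ idxLE M), Finset.sum_mul_sum]
  simp only [h1]
  rw [← Finset.sum_product', Finset.sum_comm]
  apply Finset.sum_congr rfl
  intro t _
  rw [Finset.sum_product, mul_assoc, Finset.sum_mul_sum, Finset.mul_sum]
  apply Finset.sum_congr rfl
  intro W' _
  rw [Finset.mul_sum]
  apply Finset.sum_congr rfl
  intro W'' _
  ring

theorem ip_ch_mul (i x z : Idx F) : ip i.1 (ch i) (ch x * ch z) = mc x z i := by
  rw [← ip_conj, mc_spec]; simp

/-- the Hopf axiom, right side -/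
theorem hopf_right (i j k l : Idx F) (M : ℕ) (hk : k.1 ≤ M) (hl : l.1 ≤ M) :
    ip (i.1 + j.1) (ch i * ch j) (ch k * ch l) =
      ∑ t ∈ (idxLE M ×ˢ idxLE M) ×ˢ (idxLE M ×ˢ idxLE M),
      (mc t.1.1 t.1.2 k : ℂ) * mc t.2.1 t.2.2 l * mc t.1.1 t.2.1 i * mc t.1.2 t.2.2 j := by
  rw [ip_mul' _ _ _ _ _ (ch_hom i)]
  simp only [coprod_ch_mul k l M hk hl]
  have hfa := Fintype.ofFinite (G F i.1)
  have hfb := Fintype.ofFinite (G F j.1)
  simp only [finsum_eq_sum_of_fintype, map_sum, Finset.mul_sum]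
  rw [← Finset.sum_product', Finset.sum_comm, Finset.sum_div]
  apply Finset.sum_congr rfl
  intro t _
  rw [Finset.sum_product, ← ip_ch_mul i, ← ip_ch_mul j]
  unfold ip
  simp only [finsum_eq_sum_of_fintype]
  rw [mul_assoc, div_mul_div_comm, Finset.sum_mul_sum, mul_div_assoc', Finset.mul_sum]
  congr 1
  apply Finset.sum_congr rfl
  intro α _
  rw [Finset.mul_sum]
  apply Finset.sum_congr rfl
  intro β _
  simp only [map_mul, map_natCast]
  ring

end Pool.Agent.REll
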