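import Pool.Agent.Lib_helper45.REll.Bridge2

/-!
# The PSH algebra of the groups `GL_n(F)`, part 3: the instance
-/

open scoped BigOperators ComplexConjugate
open Polynomial

namespace Pool.Agent.REll
variable {F : Type} [Field F] [Finite F]

open CF

theorem finite_G (n : ℕ) : Finite (G F n) := inferInstance

/-- the trivial character of degree `n` -/
theorem allOne_irr (n : ℕ) : part n (allOne : CF F) ∈ Irr F n := by
  refine ⟨isHom_part _ _, ?_⟩
  have h : (fun g : G F n => part n (allOne : CF F) (Fin n → F) g) = fun _ => (1 : ℂ) := by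
    ext g
    rw [part_std]; rfl
  rw [h]
  exact one_mem_irrChar

theorem part_zero_allOne : part 0 (allOne : CF F) = 1 := by
  apply hom_ext (isHom_part _ _) isHom_one
  intro g
  rw [part_std, one_apply, allOne_apply, if_pos (by simp)]

/-- the unit -/
noncomputable def oneI (F : Type) [Field F] [Finite F] : Idx F :=
  ⟨0, 1, part_zero_allOne (F := F) ▸ allOne_irr 0⟩

theorem ch_oneI : ch (oneI F) = 1 := rfl

theorem eq_oneI (i : Idx F) (hi : i.1 = 0) : i = oneI F := by
  classical
  apply ch_injective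
  by_contra hne
  have h1 := ip_irr (n := 0) (hi ▸ ch_irr i) (ch_irr (oneI F))
  rw [if_neg hne] at h1
  have hh : (ch i).IsHom 0 := hi ▸ ch_hom i
  have h2 : ch i = 0 := by
    apply hom_ext hh IsHom.zero
    intro g
    unfold ip at h1
    have hs : Subsingleton (G F 0) := ⟨fun a b => by ext v x; exact x.elim0⟩
    have hcard : Nat.card (G F 0) = 1 := Nat.card_unique
    rw [hcard] at h1
    rw [finsum_eq_single _ g (fun g' hg' => (hg' (Subsingleton.elim _ _)).elim)] at h1
    rw [ch_oneI, one_apply, if_pos (by simp)] at h1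
    simpa using h1
  have h3 := ip_ch i i
  rw [if_pos rfl, h2, ip_zero_left] at h3
  exact zero_ne_one h3

theorem finsum_zsmul_idx (n : ℕ) (φ : Idx F → ℤ) (hφ : ∀ i, φ i ≠ 0 → i.1 = n) :
    ∑ᶠ i, φ i = ∑ i ∈ idxF n, φ i := by
  apply finsum_eq_sum_of_support_subset
  intro i hi
  exact Finset.mem_coe.2 (mem_idxF.2 (hφ i hi))

/-- additive group generated by the irreducible characters -/
noncomputable def spn (F : Type) [Field F] [Finite F] : Submodule ℤ (CF F) :=
  Submodule.span ℤ (Set.range (ch : Idx F → CF F))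

theorem ch_mem_spn (i : Idx F) : ch i ∈ spn F := Submodule.subset_span ⟨i, rfl⟩

omit [Finite F] in
theorem int_cast_smul (a : ℤ) (f : CF F) : (a : ℂ) • f = a • f := by
  ext V _ _ _ g
  rw [CF.smul_apply, CF.zsmul_apply]

omit [Finite F] in
theorem cast_smul' (a : ℕ) (f : CF F) : (a : ℤ) • f = (a : ℂ) • f := by
  rw [← int_cast_smul]; simp

theorem mul_mem_spn {x y : CF F} (hx : x ∈ spn F) (hy : y ∈ spn F) : x * y ∈ spn F := by
  unfold spn at hx hy
  induction hx using Submodule.span_induction with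
  | mem x hx =>
    obtain ⟨i, rfl⟩ := hx
    induction hy using Submodule.span_induction with
    | mem y hy =>
      obtain ⟨j, rfl⟩ := hy
      rw [ch_mul]
      apply Submodule.sum_mem
      intro k _
      rw [← cast_smul']
      exact Submodule.smul_mem _ _ (ch_mem_spn k)
    | zero => rw [mul_zero]; exact Submodule.zero_mem _
    | add y y' _ _ h h' => rw [mul_add]; exact Submodule.add_mem _ h h'
    | smul a y _ h => rw [mul_smul_comm]; exact Submodule.smul_mem _ _ h
  | zero => rw [zero_mul]; exact Submodule.zero_mem _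
  | add x x' _ _ h h' => rw [add_mul]; exact Submodule.add_mem _ h h'
  | smul a x _ h => rw [smul_mul_assoc]; exact Submodule.smul_mem _ _ h

/-- the ring of virtual characters -/
noncomputable def AA (F : Type) [Field F] [Finite F] : Subring (CF F) where
  carrier := {x | x ∈ spn F}
  mul_mem' := mul_mem_spn
  one_mem' := ch_mem_spn (oneI F)
  add_mem' := fun {x y} hx hy => show x + y ∈ spn F from Submodule.add_mem _ hx hy
  zero_mem' := show (0 : CF F) ∈ spn F from Submodule.zero_mem _
  neg_mem' := fun {x} h => show -x ∈ spn F from Submodule.neg_mem _ h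

theorem mem_AA {x : CF F} : x ∈ AA F ↔ x ∈ spn F := Iff.rfl

theorem ip_zsmul_left (n : ℕ) (a : ℤ) (x y : CF F) : ip n (a • x) y = a * ip n x y := by
  rw [← int_cast_smul, ip_smul_left]

theorem linInd_ch : LinearIndependent ℤ (ch : Idx F → CF F) := by
  classical
  rw [linearIndependent_iff']
  intro s g hg i hi
  have h1 : ip i.1 (∑ j ∈ s, g j • ch j) (ch i) = 0 := by rw [hg, ip_zero_left]
  rw [ip_sum_left, Finset.sum_eq_single i] at h1
  · rw [ip_zsmul_left, ip_ch, if_pos rfl, mul_one] at h1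
    exact_mod_cast h1
  · intro j _ hj
    rw [ip_zsmul_left]
    by_cases hd : j.1 = i.1
    · rw [ip_irr (hd ▸ ch_irr j) (ch_irr i), if_neg (fun h => hj (ch_injective h)), mul_zero]
    · rw [ip_eq_zero_of_hom hd (ch_hom j), mul_zero]
  · intro h; exact (h hi).elim

/-- the ring of virtual characters is the span -/
noncomputable def eqvAA : spn F ≃ₗ[ℤ] AA F where
  toFun x := ⟨x.1, x.2⟩
  invFun x := ⟨x.1, x.2⟩
  map_add' _ _ := rfl
  map_smul' _ _ := rfl
  left_inv _ := rfl
  right_inv _ := rfl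

/-- the basis of irreducible characters -/
noncomputable def bas (F : Type) [Field F] [Finite F] : Module.Basis (Idx F) ℤ (AA F) :=
  (Module.Basis.span (linInd_ch (F := F))).map eqvAA

theorem bas_coe (i : Idx F) : ((bas F i : AA F) : CF F) = ch i := by
  show ((Module.Basis.span (linInd_ch (F := F)) i : spn F) : CF F) = ch i
  exact congrArg Subtype.val (Module.Basis.span_apply (linInd_ch (F := F)) i)

theorem mc_ne_le {x y k : Idx F} (h : mc x y k ≠ 0) : x.1 ≤ k.1 ∧ y.1 ≤ k.1 := by
  have := mc_deg h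
  omega

/-- the PSH algebra of the groups `GL_n(F)` -/
noncomputable def PG (F : Type) [Field F] [Finite F] : PSH (Idx F) (AA F) where
  b := bas F
  deg i := i.1
  one := oneI F
  c := mc
  b_one := by
    apply Subtype.ext
    rw [bas_coe, ch_oneI]; rfl
  deg_one := rfl
  eq_one := eq_oneI
  fin n := (idxF (F := F) n).finite_toSet.subset (fun i hi => Finset.mem_coe.2 (mem_idxF.2 hi))
  mul i j := by
    have h : ∑ᶠ k, (mc i j k : ℤ) • bas F k = ∑ k ∈ idxF (i.1 + j.1), (mc i j k : ℤ) • bas F k := by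
      apply finsum_eq_sum_of_support_subset
      intro k hk
      apply Finset.mem_coe.2 (mem_idxF.2 (mc_deg _))
      intro h0
      apply hk
      simp [h0]
    rw [h]
    apply Subtype.ext
    push_cast
    rw [bas_coe, bas_coe, ch_mul]
    apply Finset.sum_congr rfl
    intro k _
    rw [bas_coe, cast_smul']
  c_deg i j k h := mc_deg h
  hopf i j k l := by
    classical
    set M := k.1 + l.1 with hM
    have h1 : ∑ᶠ m, mc i j m * mc k l m = ∑ m ∈ idxF (i.1 + j.1), mc i j m * mc k l m := by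
      apply finsum_eq_sum_of_support_subset
      intro m hm
      apply Finset.mem_coe.2 (mem_idxF.2 (mc_deg _))
      intro h0
      apply hm
      simp [h0]
    have h2 : ∑ᶠ x : Idx F × Idx F × Idx F × Idx F,
        mc x.1 x.2.1 i * mc x.2.2.1 x.2.2.2 j * mc x.1 x.2.2.1 k * mc x.2.1 x.2.2.2 l =
        ∑ x ∈ idxLE M ×ˢ idxLE M ×ˢ idxLE M ×ˢ idxLE M,
        mc x.1 x.2.1 i * mc x.2.2.1 x.2.2.2 j * mc x.1 x.2.2.1 k * mc x.2.1 x.2.2.2 l := by
      apply finsum_eq_sum_of_support_subset
      rintro ⟨a, b, c, d⟩ hx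
      simp only [Function.mem_support, ne_eq, mul_eq_zero, not_or] at hx
      have e1 := mc_ne_le hx.1.2
      have e2 := mc_ne_le hx.2
      simp only [Finset.coe_product, Set.mem_prod, Finset.mem_coe, mem_idxLE]
      refine ⟨?_, ?_, ?_, ?_⟩ <;> omega
    rw [h1, h2]
    have h3 := hopf_left i j k l (i.1 + j.1) rfl
    rw [hopf_right i j k l M (by omega) (by omega)] at h3
    have h4 : ∑ t ∈ (idxLE M ×ˢ idxLE M) ×ˢ (idxLE M ×ˢ idxLE M),
      mc t.1.1 t.1.2 k * mc t.2.1 t.2.2 l * mc t.1.1 t.2.1 i * mc t.1.2 t.2.2 j =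
      ∑ m ∈ idxF (i.1 + j.1), mc i j m * mc k l m := by exact_mod_cast h3
    rw [← h4]
    refine Finset.sum_nbij' (fun t => (t.1.1, t.2.1, t.1.2, t.2.2))
      (fun x => ((x.1, x.2.2.1), (x.2.1, x.2.2.2))) ?_ ?_ ?_ ?_ ?_
    · rintro ⟨⟨a, b⟩, ⟨c, d⟩⟩ h
      simp only [Finset.mem_product] at h ⊢
      tauto
    · rintro ⟨a, b, c, d⟩ h
      simp only [Finset.mem_product] at h ⊢
      tauto
    · rintro ⟨⟨a, b⟩, ⟨c, d⟩⟩ h; rfl
    · rintro ⟨a, b, c, d⟩ h; rfl
    · rintro ⟨⟨a, b⟩, ⟨c, d⟩⟩ h
      simp only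
      ring

end Pool.Agent.REll
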