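import Pool.Agent.Lib_helper45.REll.Wanted

/-!
# The commutative algebra `CF F`; basic API
-/

open scoped BigOperators ComplexConjugate
open Polynomial

namespace Pool.Agent.REll
variable {F : Type} [Field F]

namespace CF

noncomputable instance instCommRing : CommRing (CF F) where
  mul_assoc := hall_assoc
  mul_comm := hall_comm
  one_mul := one_hall
  mul_one := hall_one
  left_distrib := hall_add
  right_distrib := add_hall
  zero_mul f := by
    ext V _ _ _ g
    simp [mul_apply]
  mul_zero f := by
    ext V _ _ _ g
    simp [mul_apply]
  __ := (inferInstance : AddCommGroup (CF F))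

theorem smul_hall (c : ℂ) (f h : CF F) : (c • f) * h = c • (f * h) := by
  ext V _ _ _ g
  simp only [mul_apply, smul_apply, mul_assoc]
  exact (mul_finsum _ _).symm

theorem hall_smul (c : ℂ) (f h : CF F) : f * (c • h) = c • (f * h) := by
  rw [mul_comm, smul_hall, mul_comm]

noncomputable instance instAlgebra : Algebra ℂ (CF F) :=
  Algebra.ofModule smul_hall hall_smul

end CF
end Pool.Agent.REll
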