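import Pool.Agent.Lib_helper45.REll.Str4

/-!
# The counting formula
-/

open scoped BigOperators ComplexConjugate
open Polynomial

namespace Pool.Agent.REll

open CF

theorem cp_conj {F : Type} [Field F] {V : Type} [AddCommGroup V] [Module F V] [Finite V]
    (x g : V ≃ₗ[F] V) : cp (x * g * x⁻¹) = cp g := by
  have : Module.Finite F V := Module.Finite.of_finite
  unfold cp
  have h : ((x * g * x⁻¹ : V ≃ₗ[F] V) : V →ₗ[F] V) = x.conj (g : V →ₗ[F] V) := by
    ext v
    simp [LinearEquiv.conj_apply, LinearEquiv.coe_inv]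
  rw [h, LinearEquiv.charpoly_conj]

theorem card_G (F : Type) [Field F] [Finite F] (n : ℕ) :
    (Nat.card (G F n) : ℚ) =
      ∏ i ∈ Finset.range n, ((Nat.card F : ℚ) ^ n - (Nat.card F : ℚ) ^ i) := by
  have := Fintype.ofFinite F
  have e : GL (Fin n) F ≃ G F n :=
    (Matrix.GeneralLinearGroup.toLin.trans
      (LinearMap.GeneralLinearGroup.generalLinearEquiv F (Fin n → F))).toEquiv
  rw [← Nat.card_congr e, Matrix.card_GL_field, Finset.prod_range]
  push_cast
  apply Finset.prod_congr rfl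
  intro i _
  rw [Nat.cast_sub (Nat.pow_le_pow_right Fintype.card_pos i.2.le)]
  push_cast
  rw [Nat.card_eq_fintype_card]

section
variable (F : Type) [Field F] [Finite F]

/-- the summand of Frobenius' formula -/
noncomputable def phi (n k : ℕ) (χ : G F n → ℂ) : ℂ :=
  gip ({g : G F n | Irreducible (cp g)}.indicator 1) χ ^ k *
    conj (gip ({g : G F n | Irreducible (cp g)}.indicator 1) χ) / χ 1 ^ (k - 1)

theorem gip_res (n : ℕ) (f : CF F) :
    gip ({g : G F n | Irreducible (cp g)}.indicator 1) (res n f) = ip n oneT f := by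
  classical
  rw [ip_eq]
  congr 1

theorem phi_eval (n k : ℕ) (hk : 1 ≤ k) (f : CF F) (η : ℂ) (hη : η = 1 ∨ η = -1) (x D : ℚ)
    (h1 : ip n oneT f = η * (x : ℂ)) (h2 : f (Fin n → F) (LinearEquiv.refl F _) = η * (D : ℂ)) :
    phi F n k (res n f) = ((x ^ (k + 1) / D ^ (k - 1) : ℚ) : ℂ) := by
  unfold phi
  rw [gip_res, h1]
  have h3 : res n f 1 = η * (D : ℂ) := h2
  rw [h3]
  obtain ⟨k, rfl⟩ : ∃ k', k = k' + 1 := ⟨k - 1, by omega⟩
  rw [map_mul, map_ratCast, Nat.add_sub_cancel]
  rcases hη with rfl | rfl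
  · simp only [one_mul, map_one]
    push_cast
    ring
  · have hs : ((-1 : ℂ)) ^ k * (-1) ^ k = 1 := by
      rw [← mul_pow]; norm_num
    have hs0 : ((-1 : ℂ)) ^ k ≠ 0 := pow_ne_zero _ (by norm_num)
    rw [map_neg, map_one, mul_pow, mul_pow]
    push_cast
    by_cases hD : (D : ℂ) ^ k = 0
    · rw [hD]; simp
    field_simp
    ring

/-- the counting formula -/
theorem count (n k : ℕ) (hn : 1 ≤ n) (hk : 1 ≤ k) :
    (Nat.card {t : Fin k → G F n // (∀ i, Irreducible (cp (t i))) ∧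
      Irreducible (cp (List.ofFn t).prod)} : ℂ) = ((Gval (Nat.card F) n k : ℚ) : ℂ) := by
  classical
  have hfrob := frob_count (Γ := G F n) {g : G F n | Irreducible (cp g)}
    (fun x g => by simp only [Set.mem_ofPred_eq, cp_conj]) k hk
  simp only [Set.mem_ofPred_eq] at hfrob
  rw [hfrob]
  obtain ⟨C, χ, η, ρ, hC, hχ, hinj, hsurj, hρ, hfib⟩ := str F n hn
  -- step 1: the sum over irreducible characters
  have h1 : ∑ χ ∈ (irrChar_finite (G F n)).toFinset, phi F n k χ =
      ∑ p ∈ C.sigma (fun r => Finset.range (n / r.d)), phi F n k (res n (ch (χ p.1 p.2))) := by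
    symm
    apply Finset.sum_of_injOn (fun p => res n (ch (χ p.1 p.2)))
    · rintro ⟨r, t⟩ hp ⟨r', t'⟩ hp' h
      simp only [Finset.coe_sigma, Set.mem_sigma_iff, Finset.mem_coe, Finset.mem_range] at hp hp'
      have hd := (hχ r hp.1 t hp.2).2.1
      have hd' := (hχ r' hp'.1 t' hp'.2).2.1
      have h2 : ch (χ r t) = ch (χ r' t') := by
        apply res_injOn n (hd ▸ ch_irr (χ r t)) (hd' ▸ ch_irr (χ r' t')) h
      obtain ⟨h3, h4⟩ := hinj r hp.1 r' hp'.1 t hp.2 t' hp'.2 (ch_injective h2)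
      subst h3; subst h4; rfl
    · rintro ⟨r, t⟩ hp
      simp only [Finset.coe_sigma, Set.mem_sigma_iff, Finset.mem_coe, Finset.mem_range] at hp
      have hd := (hχ r hp.1 t hp.2).2.1
      have h2 : ch (χ r t) ∈ Irr F n := hd ▸ ch_irr (χ r t)
      rw [Finset.mem_coe, Set.Finite.mem_toFinset]
      exact h2.2
    · intro ψ hψ hne
      rw [Set.Finite.mem_toFinset] at hψ
      obtain ⟨f, hf, rfl⟩ := exists_irr n hψ
      by_cases h0 : ip n oneT f = 0
      · unfold phi
        rw [gip_res, h0, zero_pow (by omega)]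
        simp
      · exfalso
        obtain ⟨r, hr, t, ht, h⟩ := hsurj ⟨n, f, hf⟩ rfl h0
        apply hne
        refine ⟨⟨r, t⟩, ?_, ?_⟩
        · simp only [Finset.coe_sigma, Set.mem_sigma_iff, Finset.mem_coe, Finset.mem_range]
          exact ⟨hr, ht⟩
        · show res n (ch (χ r t)) = res n f
          rw [h]; rfl
    · intro p _; rfl
  -- step 2: evaluation
  have h2 : ∀ r ∈ C, ∀ t < n / r.d, ∀ a < Nat.card F ^ n - 1, ρ a = r →
      phi F n k (res n (ch (χ r t))) =
      ((((-1) ^ t * (sa (Nat.card F) n a : ℚ) * tau (Nat.card F) n a / n) ^ (k + 1) /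
        Dg (Nat.card F) n (sa (Nat.card F) n a) t ^ (k - 1) : ℚ) : ℂ) := by
    intro r hr t ht a ha har
    obtain ⟨h3, h4, h5, h6⟩ := hχ r hr t ht
    have h7 : sa (Nat.card F) n a = r.d := by rw [← (hρ a ha).2, har]
    rw [h7]
    exact phi_eval F n k hk _ _ h3 _ _ (h6 a ha har) h5
  -- step 3: the sum over a
  have h3 : ∑ p ∈ C.sigma (fun r => Finset.range (n / r.d)),
      phi F n k (res n (ch (χ p.1 p.2))) =
      ∑ a ∈ Finset.range (Nat.card F ^ n - 1), (1 / (sa (Nat.card F) n a : ℂ)) *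
      ∑ t ∈ Finset.range (n / sa (Nat.card F) n a),
      ((((-1) ^ t * (sa (Nat.card F) n a : ℚ) * tau (Nat.card F) n a / n) ^ (k + 1) /
        Dg (Nat.card F) n (sa (Nat.card F) n a) t ^ (k - 1) : ℚ) : ℂ) := by
    rw [Finset.sum_sigma]
    rw [← Finset.sum_fiberwise_of_maps_to (g := ρ) (t := C)
      (fun a ha => (hρ a (Finset.mem_range.1 ha)).1)]
    apply Finset.sum_congr rfl
    intro r hr
    have hcard : ((Finset.range (Nat.card F ^ n - 1)).filter (fun a => ρ a = r)).card = r.d := by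
      rw [← hfib r hr]
      symm
      apply Nat.subtype_card
      intro a
      rw [Finset.mem_filter, Finset.mem_range]
    have hterm : ∀ a ∈ (Finset.range (Nat.card F ^ n - 1)).filter (fun a => ρ a = r),
        (1 / (sa (Nat.card F) n a : ℂ)) *
      ∑ t ∈ Finset.range (n / sa (Nat.card F) n a),
      ((((-1) ^ t * (sa (Nat.card F) n a : ℚ) * tau (Nat.card F) n a / n) ^ (k + 1) /
        Dg (Nat.card F) n (sa (Nat.card F) n a) t ^ (k - 1) : ℚ) : ℂ) =
        (1 / (r.d : ℂ)) * ∑ t ∈ Finset.range (n / r.d), phi F n k (res n (ch (χ r t))) := by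
      intro a ha
      rw [Finset.mem_filter, Finset.mem_range] at ha
      have h7 : sa (Nat.card F) n a = r.d := by rw [← (hρ a ha.1).2, ha.2]
      rw [h7]
      congr 1
      apply Finset.sum_congr rfl
      intro t ht
      rw [h2 r hr t (Finset.mem_range.1 ht) a ha.1 ha.2, h7]
    rw [Finset.sum_congr rfl hterm, Finset.sum_const, hcard, nsmul_eq_mul, ← mul_assoc]
    have hrd : (r.d : ℂ) ≠ 0 := Nat.cast_ne_zero.2 (by have := (hC r hr).1; omega)
    rw [mul_one_div_cancel hrd, one_mul]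
  show (Nat.card (G F n) : ℂ) ^ k * ∑ χ ∈ (irrChar_finite (G F n)).toFinset, phi F n k χ = _
  rw [h1, h3]
  unfold Gval
  have hc : (Nat.card (G F n) : ℂ) = ((Nat.card (G F n) : ℚ) : ℂ) := by push_cast; rfl
  rw [hc, card_G]
  push_cast
  rfl

end
end Pool.Agent.REll
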