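import Mathlib

/-!
# Regular elliptic factorisations: common definitions (MP_f95f3f_co)

Class functions are treated as functions on *all* pairs `(V, g)`, `V` a finite vector space over
the field `F` and `g` an automorphism of `V`, which depend only on the isomorphism class.
The Hall (= Harish-Chandra) product is the sum over all `g`-stable subspaces.
-/

open scoped BigOperators ComplexConjugate

namespace Pool.Agent.REll

/-- A class function on all pairs `(V, g)`. -/
@[ext]
structure CF (F : Type) [Field F] where
  toFun : ∀ (V : Type) [AddCommGroup V] [Module F V] [Finite V], (V ≃ₗ[F] V) → ℂ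
  inv' : ∀ (V V' : Type) [AddCommGroup V] [Module F V] [Finite V]
    [AddCommGroup V'] [Module F V'] [Finite V'] (e : V ≃ₗ[F] V')
    (g : V ≃ₗ[F] V) (g' : V' ≃ₗ[F] V'), (∀ v, e (g v) = g' (e v)) → toFun V g = toFun V' g'

variable {F : Type} [Field F]

instance finite_quot {V : Type} [AddCommGroup V] [Module F V] [Finite V] (W : Submodule F V) :
    Finite (V ⧸ W) := Finite.of_surjective _ (Submodule.mkQ_surjective W)

section Stab
variable {V : Type} [AddCommGroup V] [Module F V]

/-- The `g`-stable subspaces. -/
def Stab (g : V ≃ₗ[F] V) : Type := {W : Submodule F V // W.map (g : V →ₗ[F] V) = W}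

/-- `g` restricted to a stable subspace. -/
noncomputable def sub (g : V ≃ₗ[F] V) (W : Stab g) : W.1 ≃ₗ[F] W.1 := g.ofSubmodules W.1 W.1 W.2

/-- `g` on the quotient by a stable subspace. -/
noncomputable def quo (g : V ≃ₗ[F] V) (W : Stab g) : (V ⧸ W.1) ≃ₗ[F] (V ⧸ W.1) :=
  Submodule.Quotient.equiv W.1 W.1 g W.2

@[simp] theorem sub_apply (g : V ≃ₗ[F] V) (W : Stab g) (w : W.1) :
    ((sub g W w : W.1) : V) = g w := rfl

@[simp] theorem quo_mk (g : V ≃ₗ[F] V) (W : Stab g) (v : V) :
    quo g W (Submodule.Quotient.mk v) = Submodule.Quotient.mk (g v) := rfl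

instance finite_stab [Finite V] (g : V ≃ₗ[F] V) : Finite (Stab g) := Subtype.finite

/-- transport of stable subspaces along an isomorphism of pairs -/
def Stab.map {V' : Type} [AddCommGroup V'] [Module F V'] {g : V ≃ₗ[F] V} {g' : V' ≃ₗ[F] V'}
    (e : V ≃ₗ[F] V') (he : ∀ v, e (g v) = g' (e v)) (W : Stab g) : Stab g' :=
  ⟨W.1.map (e : V →ₗ[F] V'), by
    have h1 : (g' : V' →ₗ[F] V') ∘ₗ (e : V →ₗ[F] V') = (e : V →ₗ[F] V') ∘ₗ (g : V →ₗ[F] V) := by
      ext v; exact (he v).symm
    rw [← Submodule.map_comp, h1, Submodule.map_comp, W.2]⟩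

end Stab

/-- The block triangular automorphism `(b, a) ↦ (β b, α a + u b)` of `B × A`; it stabilises
`0 × A`, acts by `α` there and by `β` on the quotient. -/
noncomputable def tri {A B : Type} [AddCommGroup A] [Module F A] [AddCommGroup B] [Module F B]
    (α : A ≃ₗ[F] A) (β : B ≃ₗ[F] B) (u : B →ₗ[F] A) : (B × A) ≃ₗ[F] (B × A) :=
  LinearEquiv.skewProd β α u

@[simp] theorem tri_apply {A B : Type} [AddCommGroup A] [Module F A] [AddCommGroup B] [Module F B]
    (α : A ≃ₗ[F] A) (β : B ≃ₗ[F] B) (u : B →ₗ[F] A) (x : B × A) :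
    tri α β u x = (β x.1, α x.2 + u x.1) := rfl

/-- The general linear group of the standard space of dimension `n`. -/
abbrev G (F : Type) [Field F] (n : ℕ) : Type := (Fin n → F) ≃ₗ[F] (Fin n → F)

instance finite_hom {A B : Type} [AddCommGroup A] [Module F A] [AddCommGroup B] [Module F B]
    [Finite A] [Finite B] : Finite (B →ₗ[F] A) := DFunLike.finite _

instance finite_equiv {A B : Type} [AddCommGroup A] [Module F A] [AddCommGroup B] [Module F B]
    [Finite A] [Finite B] : Finite (B ≃ₗ[F] A) := DFunLike.finite _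

namespace CF

instance : CoeFun (CF F) (fun _ => ∀ (V : Type) [AddCommGroup V] [Module F V] [Finite V],
    (V ≃ₗ[F] V) → ℂ) := ⟨CF.toFun⟩

/-- `f` is homogeneous of degree `n`: it vanishes outside dimension `n`. -/
def IsHom (n : ℕ) (f : CF F) : Prop :=
  ∀ (V : Type) [AddCommGroup V] [Module F V] [Finite V] (g : V ≃ₗ[F] V),
    Module.finrank F V ≠ n → f V g = 0

/-- The Hall product. -/
noncomputable def hall (f h : CF F) : CF F where
  toFun V _ _ _ g := ∑ᶠ W : Stab g, f W.1 (sub g W) * h (V ⧸ W.1) (quo g W)
  inv' V V' _ _ _ _ _ _ e g g' he := by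
    have he' : ∀ v', e.symm (g' v') = g (e.symm v') := by
      intro v'
      apply e.injective
      rw [he]; simp
    refine finsum_eq_of_bijective (Stab.map e he) ?_ ?_
    · rw [Function.bijective_iff_has_inverse]
      refine ⟨Stab.map e.symm he', ?_, ?_⟩
      · intro W
        apply Subtype.ext
        simp only [Stab.map]
        rw [← Submodule.map_comp]
        simp
      · intro W
        apply Subtype.ext
        simp only [Stab.map]
        rw [← Submodule.map_comp]
        simp
    · intro W
      congr 1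
      · apply f.inv' _ _ (e.submoduleMap W.1)
        intro v
        apply Subtype.ext
        show e (g v) = g' (e v)
        exact he v
      · apply h.inv' _ _ (Submodule.Quotient.equiv W.1 (Stab.map e he W).1 e rfl)
        intro v
        obtain ⟨v, rfl⟩ := Submodule.Quotient.mk_surjective _ v
        show (Submodule.Quotient.mk (e (g v)) : V' ⧸ (Stab.map e he W).1)
          = Submodule.Quotient.mk (g' (e v))
        rw [he]

end CF
end Pool.Agent.REll
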