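import Pool.Agent.Lib_helper45.REll.Ring

/-!
# Further definitions
-/

open scoped BigOperators ComplexConjugate
open Polynomial

namespace Pool.Agent.REll
variable {F : Type} [Field F]

/-- characteristic polynomial of an automorphism -/
noncomputable def cp {V : Type} [AddCommGroup V] [Module F V] [Finite V] (g : V ≃ₗ[F] V) : F[X] :=
  haveI : Module.Finite F V := Module.Finite.of_finite
  (g : V →ₗ[F] V).charpoly

namespace CF

/-- the constant function `1` (trivial character in every degree) -/
noncomputable def allOne : CF F := ⟨fun _ _ _ _ _ => 1, by intros; rfl⟩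

/-- homogeneous part -/
noncomputable def part (n : ℕ) (f : CF F) : CF F where
  toFun V _ _ _ g := if Module.finrank F V = n then f V g else 0
  inv' V V' _ _ _ _ _ _ e g g' he := by rw [e.finrank_eq, f.inv' V V' e g g' he]

/-- sum of `θ` over the eigenvalues in `K` (with algebraic multiplicity) -/
noncomputable def Bf (K : Type) [Field K] [Algebra F K] (θ : MulChar K ℂ) : CF F where
  toFun V _ _ _ g := (((cp g).map (algebraMap F K)).roots.map (fun x => θ x)).sum
  inv' V V' _ _ _ _ _ _ e g g' he := by
    haveI : Module.Finite F V := Module.Finite.of_finite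
    haveI : Module.Finite F V' := Module.Finite.of_finite
    have h : cp g = cp g' := by
      have h1 : (g' : V' →ₗ[F] V') = e.conj (g : V →ₗ[F] V) := by
        ext v
        simp only [LinearEquiv.conj_apply, LinearMap.comp_apply, LinearEquiv.coe_coe]
        rw [he]; simp
      unfold cp
      rw [h1, LinearEquiv.charpoly_conj]
    rw [h]

/-- indicator function of the regular elliptic elements -/
noncomputable def oneT : CF F where
  toFun V _ _ _ g := open Classical in if Irreducible (cp g) then 1 else 0
  inv' V V' _ _ _ _ _ _ e g g' he := by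
    haveI : Module.Finite F V := Module.Finite.of_finite
    haveI : Module.Finite F V' := Module.Finite.of_finite
    have h : cp g = cp g' := by
      have h1 : (g' : V' →ₗ[F] V') = e.conj (g : V →ₗ[F] V) := by
        ext v
        simp only [LinearEquiv.conj_apply, LinearMap.comp_apply, LinearEquiv.coe_coe]
        rw [he]; simp
      unfold cp
      rw [h1, LinearEquiv.charpoly_conj]
    rw [h]

/-- inner product in degree `n` -/
noncomputable def ip [Finite F] (n : ℕ) (f h : CF F) : ℂ :=
  (∑ᶠ g : G F n, f (Fin n → F) g * conj (h (Fin n → F) g)) / Nat.card (G F n)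

/-- Harish-Chandra restriction (average over the unipotent radical) -/
noncomputable def coprod {A B : Type} [AddCommGroup A] [Module F A] [Finite A]
    [AddCommGroup B] [Module F B] [Finite B] (k : CF F) (α : A ≃ₗ[F] A) (β : B ≃ₗ[F] B) : ℂ :=
  (∑ᶠ u : B →ₗ[F] A, k (B × A) (tri α β u)) / Nat.card (B →ₗ[F] A)

/-- `k` is primitive: all proper restrictions vanish. -/
def IsPrim (k : CF F) : Prop :=
  ∀ (A B : Type) [AddCommGroup A] [Module F A] [Finite A]
    [AddCommGroup B] [Module F B] [Finite B] (α : A ≃ₗ[F] A) (β : B ≃ₗ[F] B),
    0 < Module.finrank F A → 0 < Module.finrank F B → coprod k α β = 0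

end CF

/-- `v` is a cyclic vector of `g` -/
def IsCyc {V : Type} [AddCommGroup V] [Module F V] (g : V ≃ₗ[F] V) (v : V) : Prop :=
  Submodule.span F (Set.range fun i : ℕ => (g ^ i) v) = ⊤

open Classical in
/-- value of `k` at a cyclic pair with characteristic polynomial `P` -/
noncomputable def val [Finite F] (k : CF F) (P : F[X]) : ℂ :=
  if h : ∃ g : G F P.natDegree, cp g = P ∧ ∃ v, IsCyc g v then k _ h.choose else 0

open Classical in
/-- von Mangoldt type function: `Σ θ(roots)` (each root once) on prime powers, `0` else. -/
noncomputable def lam (K : Type) [Field K] [Algebra F K] (θ : MulChar K ℂ) (P : F[X]) : ℂ :=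
  if IsPrimePow P then ∑ x ∈ (P.map (algebraMap F K)).roots.toFinset, θ x else 0

/-- `K` is a finite extension of `F` containing all extensions of degree `≤ n`. -/
def Big (F : Type) [Field F] (n : ℕ) (K : Type) [Field K] [Algebra F K] : Prop :=
  ∀ j, 1 ≤ j → j ≤ n → (Nat.card F ^ j - 1) ∣ (Nat.card K - 1)

/-! ### Representation theory of a finite group -/

/-- irreducible complex characters -/
def IrrChar (Γ : Type) [Group Γ] : Set (Γ → ℂ) :=
  {χ | ∃ (d : ℕ) (ρ : Representation ℂ Γ (Fin d → ℂ)), ρ.IsIrreducible ∧ χ = ρ.character}

/-- inner product of functions on a finite group -/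
noncomputable def gip {Γ : Type} (f h : Γ → ℂ) : ℂ :=
  (∑ᶠ g, f g * conj (h g)) / Nat.card Γ

/-- the irreducible characters of `GL_n(F)`, as class functions in our sense -/
def Irr (F : Type) [Field F] [Finite F] (n : ℕ) : Set (CF F) :=
  {χ | χ.IsHom n ∧ (fun g : G F n => χ (Fin n → F) g) ∈ IrrChar (G F n)}

end Pool.Agent.REll
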