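import Pool.Agent.Lib_helper45.REll.Bridge3
import Pool.Agent.Lib_helper97.REll_SAN

/-!
# Definitions, part 3
-/

open scoped BigOperators ComplexConjugate
open Polynomial

namespace Pool.Agent.REll

/-- `ι` generates the character group of `K` (property of `exists_gen`) -/
def IsGen {K : Type} [Field K] [Finite K] (ι : MulChar K ℂ) : Prop :=
  (∀ θ : MulChar K ℂ, ∃ a : ℕ, θ = ι ^ a) ∧
    ∀ (m a : ℕ), m ∣ Nat.card K - 1 → 0 < m →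
      (∑ᶠ x : {x : K // x ^ m = 1}, (ι ^ a) x.1 = if m ∣ a then (m : ℂ) else 0)

end Pool.Agent.REll

namespace Pool.Agent.REll.PSH
universe u v
variable {I : Type u} {A : Type v} [CommRing A] (P : PSH I A)

/-- `x` is homogeneous of degree `m` -/
def Hom (m : ℕ) (x : A) : Prop := ∀ i, P.deg i ≠ m → P.inn x (P.b i) = 0

/-- conclusion of `hooks`, as a structure -/
structure HK (r : I) (i₂ : I) where
  h : ℕ → A
  e : ℕ → A
  p : ℕ → A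
  s : ℕ → ℕ → A
  h0 : h 0 = 1
  e0 : e 0 = 1
  h1 : h 1 = P.b r
  h2 : h 2 = P.b i₂
  hb : ∀ m, ∃ i, h m = P.b i ∧ P.deg i = m * P.deg r
  he : ∀ m, 1 ≤ m → ∑ i ∈ Finset.range (m + 1), (-1) ^ i * e i * h (m - i) = 0
  newton : ∀ m : ℕ, 1 ≤ m → (m : A) * h m = ∑ j ∈ Finset.Icc 1 m, p j * h (m - j)
  hs : ∀ m t, t < m → s m t = ∑ i ∈ Finset.range (t + 1), (-1) ^ i * e (t - i) * h (m - t + i)
  ps : ∀ m, 1 ≤ m → p m = ∑ t ∈ Finset.range m, (-1) ^ t * s m t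
  pprim : ∀ m, 1 ≤ m → P.Prim (p m)
  pp : ∀ m : ℕ, 1 ≤ m → P.inn (p m) (p m) = m
  ph : ∀ (m : ℕ) x, 1 ≤ m → P.Prim x → P.inn x (p m) = m * P.inn x (h m)
  sb : ∀ m t, t < m → ∃ (i : I) (ε : ℤ), (ε = 1 ∨ ε = -1) ∧ s m t = ε • P.b i
          ∧ P.deg i = m * P.deg r ∧ (∃ j, P.c r j i ≠ 0)
          ∧ ∀ r', P.PrimIdx r' → r' ≠ r → ∀ j, P.c r' j i = 0
  ss : ∀ m t t', t < m → t' < m → P.inn (s m t) (s m t') = if t = t' then 1 else 0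

theorem nonempty_HK {r : I} (hr : P.PrimIdx r) {i₂ : I} (h2 : P.c r r i₂ ≠ 0) :
    Nonempty (P.HK r i₂) := by
  obtain ⟨h, e, p, s, a1, a2, a3, a4, a5, a6, a7, a8, a9, a10, a11, a12, a13, a14⟩ :=
    P.hooks hr h2
  exact ⟨⟨h, e, p, s, a1, a2, a3, a4, a5, a6, a7, a8, a9, a10, a11, a12, a13, a14⟩⟩

end Pool.Agent.REll.PSH
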