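import Pool.Agent.Lib_helper45.REll.Count

/-!
# Polynomiality of the counts in `GL_n(F_q)`, `q ≡ 1 mod n`
-/

open scoped BigOperators ComplexConjugate
open Polynomial

namespace Pool.Agent.REll

open CF

/-- `GL_n` as automorphisms of the standard space -/
noncomputable def glE (n : ℕ) (F : Type) [Field F] : GL (Fin n) F ≃* G F n :=
  Matrix.GeneralLinearGroup.toLin.trans
    (LinearMap.GeneralLinearGroup.generalLinearEquiv F (Fin n → F))

theorem cp_glE (n : ℕ) (F : Type) [Field F] [Finite F] (g : GL (Fin n) F) :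
    cp (glE n F g) = (g : Matrix (Fin n) (Fin n) F).charpoly := by
  have : Module.Finite F (Fin n → F) := inferInstance
  unfold cp
  rw [← Matrix.charpoly_mulVecLin]
  congr 1

theorem count_GL (n k : ℕ) (F : Type) [Field F] [Finite F] :
    Nat.card {t : Fin k → GL (Fin n) F //
      (∀ i, Irreducible ((t i : GL (Fin n) F) : Matrix (Fin n) (Fin n) F).charpoly) ∧
      Irreducible (((List.ofFn t).prod : GL (Fin n) F) : Matrix (Fin n) (Fin n) F).charpoly} =
    Nat.card {t : Fin k → G F n // (∀ i, Irreducible (cp (t i))) ∧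
      Irreducible (cp (List.ofFn t).prod)} := by
  apply Nat.card_congr
  apply (Equiv.arrowCongr (Equiv.refl (Fin k)) (glE n F).toEquiv).subtypeEquiv
  intro t
  have h1 : ∀ i, (Equiv.arrowCongr (Equiv.refl (Fin k)) (glE n F).toEquiv) t i = glE n F (t i) :=
    fun i => rfl
  have h2 : (List.ofFn ((Equiv.arrowCongr (Equiv.refl (Fin k)) (glE n F).toEquiv) t)).prod =
      glE n F (List.ofFn t).prod := by
    rw [map_list_prod, List.map_ofFn]
    rfl
  rw [h2, cp_glE]
  simp only [h1, cp_glE]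

theorem Dg_ne_zero (F : Type) [Field F] [Finite F] (n : ℕ) (hn : 1 ≤ n) (s : ℕ) (hs : s ∣ n)
    (t : ℕ) (ht : t < n / s) : Dg (Nat.card F) n s t ≠ 0 := by
  have hq : 2 ≤ Nat.card F := two_le_card
  have hs1 : 1 ≤ s := Nat.pos_of_dvd_of_pos hs hn
  obtain ⟨C, χ, η, ρ, hC, hχ, hinj, hsurj, hρ, hfib⟩ := str F n hn
  -- an element with `sa = s`
  have hlt : 1 < Nat.card F ^ n := Nat.one_lt_pow (by omega) (by omega)
  have hex : ∃ a < Nat.card F ^ n - 1, sa (Nat.card F) n a = s := by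
    by_cases h1 : s = 1
    · refine ⟨0, by omega, ?_⟩
      have h0 : sa (Nat.card F) n 0 ≤ 1 := Nat.sInf_le ⟨le_refl 1, by simp⟩
      have h2 := (sa_pos _ n hq hn 0).1
      omega
    · have hs2 : 2 ≤ s := by omega
      have hsq : 1 < Nat.card F ^ s - 1 := by
        have : 2 ^ 2 ≤ Nat.card F ^ s :=
          (Nat.pow_le_pow_right (by norm_num) hs2).trans (Nat.pow_le_pow_left hq s)
        omega
      have hdvd : Nat.card F ^ s - 1 ∣ Nat.card F ^ n - 1 := by
        obtain ⟨c, rfl⟩ := hs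
        rw [pow_mul]
        simpa using Nat.sub_dvd_pow_sub_pow (Nat.card F ^ s) 1 c
      obtain ⟨c, hc⟩ := hdvd
      have hc0 : 0 < c := by
        rcases Nat.eq_zero_or_pos c with h | h
        · rw [h, mul_zero] at hc; omega
        · exact h
      refine ⟨c, ?_, ?_⟩
      · rw [hc]; nlinarith
      · have hmem : ∀ i, (Nat.card F ^ n - 1 ∣ c * (Nat.card F ^ i - 1)) ↔
            Nat.card F ^ s - 1 ∣ Nat.card F ^ i - 1 := by
          intro i
          rw [hc, mul_comm (Nat.card F ^ s - 1) c]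
          exact Nat.mul_dvd_mul_iff_left hc0
        have h1 : sa (Nat.card F) n c ≤ s := Nat.sInf_le ⟨hs1, (hmem s).2 dvd_rfl⟩
        have hne : {i : ℕ | 1 ≤ i ∧ (Nat.card F ^ n - 1) ∣ c * (Nat.card F ^ i - 1)}.Nonempty :=
          ⟨s, hs1, (hmem s).2 dvd_rfl⟩
        have h2 := Nat.sInf_mem hne
        have h3 : Nat.card F ^ s - 1 ∣ Nat.card F ^ (sa (Nat.card F) n c) - 1 := (hmem _).1 h2.2
        have h4 : 1 ≤ sa (Nat.card F) n c := h2.1
        apply le_antisymm h1
        have h5 : Nat.card F ^ s - 1 ≤ Nat.card F ^ (sa (Nat.card F) n c) - 1 := by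
          apply Nat.le_of_dvd _ h3
          have : 1 < Nat.card F ^ (sa (Nat.card F) n c) := Nat.one_lt_pow (by omega) (by omega)
          omega
        by_contra hlt'
        push Not at hlt'
        have h6 : Nat.card F ^ (sa (Nat.card F) n c) < Nat.card F ^ s :=
          Nat.pow_lt_pow_right (by omega) hlt'
        have h7 : 1 < Nat.card F ^ (sa (Nat.card F) n c) := Nat.one_lt_pow (by omega) (by omega)
        omega
  obtain ⟨a, ha, has⟩ := hex
  obtain ⟨hr, hrd⟩ := hρ a ha
  rw [has] at hrd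
  obtain ⟨h1, h2, h3, -⟩ := hχ (ρ a) hr t (by rw [hrd]; exact ht)
  rw [hrd] at h3
  intro h0
  rw [h0] at h3
  have h4 : ch (χ (ρ a) t) (Fin n → F) (LinearEquiv.refl F _) = 0 := by rw [h3]; simp
  have h5 : ch (χ (ρ a) t) ∈ Irr F n := h2 ▸ ch_irr (χ (ρ a) t)
  obtain ⟨d, σ, hσ, hch⟩ := h5.2
  have h6 := congrFun hch (1 : G F n)
  have h7 : σ.character 1 = 0 := by rw [← h6]; exact h4
  have h8 : σ.character 1 = d := by
    unfold Representation.character
    simp
  have h9 : d = 0 := by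
    rw [h8] at h7
    exact_mod_cast h7
  subst h9
  classical
  have h10 := ip_irr h5 h5
  rw [if_pos rfl] at h10
  have h11 : ∀ g : G F n, ch (χ (ρ a) t) (Fin n → F) g = 0 := by
    intro g
    have h12 := congrFun hch g
    have h13 : σ.character g = 0 := by
      unfold Representation.character
      have : σ g = 0 := by
        ext v i
        exact i.elim0
      rw [this, map_zero]
    rw [← h13, ← h12]
  unfold ip at h10
  simp [h11] at h10

theorem main (n k : ℕ) (hn : 0 < n) (hk : 0 < k) : ∃ f : ℚ[X], ∀ (F : Type) [Field F] [Finite F],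
    Nat.card F ≡ 1 [MOD n] →
    (Nat.card {t : Fin k → GL (Fin n) F //
      (∀ i, Irreducible ((t i : GL (Fin n) F) : Matrix (Fin n) (Fin n) F).charpoly) ∧
      Irreducible (((List.ofFn t).prod : GL (Fin n) F) : Matrix (Fin n) (Fin n) F).charpoly} : ℚ)
      = f.eval (Nat.card F : ℚ) := by
  set S : Set ℕ := {q | q ≡ 1 [MOD n] ∧ ∃ (F : Type) (_ : Field F) (_ : Finite F), Nat.card F = q}
    with hS
  have hcount : ∀ (F : Type) [Field F] [Finite F],
      (Nat.card {t : Fin k → GL (Fin n) F //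
      (∀ i, Irreducible ((t i : GL (Fin n) F) : Matrix (Fin n) (Fin n) F).charpoly) ∧
      Irreducible (((List.ofFn t).prod : GL (Fin n) F) : Matrix (Fin n) (Fin n) F).charpoly} : ℚ)
      = Gval (Nat.card F) n k := by
    intro F _ _
    rw [count_GL]
    have h := count F n k hn hk
    have h2 : (((Nat.card {t : Fin k → G F n // (∀ i, Irreducible (cp (t i))) ∧
      Irreducible (cp (List.ofFn t).prod)} : ℕ) : ℚ) : ℂ) = ((Gval (Nat.card F) n k : ℚ) : ℂ) := by
      rw [← h]; push_cast; rfl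
    exact_mod_cast h2
  have h1 : S.Infinite := by
    apply Set.infinite_of_forall_exists_gt
    intro a
    obtain ⟨p, hp, hpa, hpm⟩ := Nat.exists_prime_gt_modEq_one a hn.ne'
    have : Fact p.Prime := ⟨hp⟩
    exact ⟨p, ⟨hpm, ZMod p, inferInstance, inferInstance, by simp⟩, hpa⟩
  have h2 : ∀ q ∈ S, 2 ≤ q ∧ q ≡ 1 [MOD n] := by
    rintro q ⟨hq1, F, _, _, rfl⟩
    exact ⟨two_le_card, hq1⟩
  have h3 : ∀ q ∈ S, ∀ s ∈ n.divisors, ∀ t < n / s, Dg q n s t ≠ 0 := by
    rintro q ⟨hq1, F, _, _, rfl⟩ s hs t ht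
    exact Dg_ne_zero F n hn s (Nat.dvd_of_mem_divisors hs) t ht
  have h4 : ∀ q ∈ S, ∃ z : ℤ, Gval q n k = z := by
    rintro q ⟨hq1, F, _, _, rfl⟩
    exact ⟨_, by rw [← hcount F]; exact (Int.cast_natCast _).symm⟩
  obtain ⟨f, hf⟩ := gval_polynomial n k hn hk S h1 h2 h3 h4
  refine ⟨f, ?_⟩
  intro F _ _ hF
  rw [hcount F]
  exact hf _ ⟨hF, F, inferInstance, inferInstance, rfl⟩

end Pool.Agent.REll
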