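import Pool.Agent.Lib_helper45.REll.Inn

/-!
# The identification of the `R`'s (double counting)
-/

open scoped BigOperators

namespace Pool.Agent.REll.PSH
universe u v
variable {I : Type u} {A : Type v} [CommRing A] (P : PSH I A)

/-- cuspidals of degree dividing `m` -/
noncomputable def cusp (m : ℕ) : Finset I := by
  classical
  exact ((Finset.range (m + 1)).biUnion (fun s => (P.fin s).toFinset)).filter
    (fun r => P.PrimIdx r ∧ P.deg r ∣ m)

theorem mem_cusp {m : ℕ} (hm : 1 ≤ m) {r : I} : r ∈ P.cusp m ↔ P.PrimIdx r ∧ P.deg r ∣ m := by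
  classical
  unfold cusp
  rw [Finset.mem_filter, and_iff_right_iff_imp]
  rintro ⟨_, h⟩
  rw [Finset.mem_biUnion]
  refine ⟨P.deg r, Finset.mem_range.2 ?_, ?_⟩
  · have := Nat.le_of_dvd hm h
    omega
  · simp

section
variable (q m : ℕ) (hq : 2 ≤ q) (hm : 1 ≤ m) (R : ℕ → ℕ → A)
    (hRp : ∀ s a, 1 ≤ s → s ≤ m → P.Prim (R s a))
    (hRh : ∀ s a, 1 ≤ s → s ≤ m → P.Hom s (R s a))
    (hRR : ∀ s a b, 1 ≤ s → s ≤ m → P.inn (R s a) (R s b) = (orb q s a b : ℤ))

include hq hRp hRh hRR in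
/-- step A -/
theorem exists_cusp (s b : ℕ) (hs1 : 1 ≤ s) (hs : s ≤ m) (hb : sa q s b = s) :
    ∃ r, P.PrimIdx r ∧ P.deg r = s ∧ (R s b = P.b r ∨ R s b = - P.b r) := by
  have h1 : orb q s b b = 1 := by
    have := orb_self q s hq hs1 b
    rw [hb] at this
    exact Nat.eq_of_mul_eq_mul_right hs1 (by rw [this, one_mul])
  have h2 : P.inn (R s b) (R s b) = 1 := by rw [hRR s b b hs1 hs, h1]; rfl
  obtain ⟨r, hr⟩ := P.exists_of_norm_one h2
  have h3 : ∃ ε : ℤ, ε ≠ 0 ∧ R s b = ε • P.b r := by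
    rcases hr with h | h
    · exact ⟨1, one_ne_zero, by rw [h, one_smul]⟩
    · exact ⟨-1, by norm_num, by rw [h, neg_one_zsmul]⟩
  obtain ⟨ε, hε, h3⟩ := h3
  have hdeg : P.deg r = s := by
    by_contra hne
    have h4 := hRh s b hs1 hs r hne
    classical
    rw [h3, inn_zsmul_left, inn_b_b, if_pos rfl, mul_one] at h4
    exact hε h4
  refine ⟨r, ⟨by omega, ?_⟩, hdeg, hr⟩
  intro i j hc
  by_contra hcon
  push Not at hcon
  have h4 := hRp s b hs1 hs i j hcon.1 hcon.2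
  rw [h3, inn_zsmul_left, inn_comm, inn_mul_b] at h4
  rcases mul_eq_zero.1 h4 with h5 | h5
  · exact hε h5
  · exact hc (by exact_mod_cast h5)

open Classical in
/-- number of `b < q^s - 1` with `sa = s` -/
noncomputable def nA (q s : ℕ) : ℕ := ((Finset.range (q ^ s - 1)).filter (fun b => sa q s b = s)).card

open Classical in
/-- number of cuspidals of degree `s` -/
noncomputable def nC (m s : ℕ) : ℕ := ((P.cusp m).filter (fun r => P.deg r = s)).card

include hq hm hRp hRh hRR in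
/-- step B -/
theorem nA_le (s : ℕ) (hs : s ∣ m) : nA q s ≤ s * P.nC m s := by
  classical
  have hs1 : 1 ≤ s := Nat.pos_of_dvd_of_pos hs hm
  have hsm : s ≤ m := Nat.le_of_dvd hm hs
  have hA : ∀ b, ∃ r, sa q s b = s → P.PrimIdx r ∧ P.deg r = s ∧
      (R s b = P.b r ∨ R s b = - P.b r) := by
    intro b
    by_cases hb : sa q s b = s
    · obtain ⟨r, hr⟩ := P.exists_cusp q m hq R hRp hRh hRR s b hs1 hsm hb
      exact ⟨r, fun _ => hr⟩
    · exact ⟨P.one, fun h => (hb h).elim⟩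
  choose ρ hρ using hA
  unfold nA nC
  apply Finset.card_le_mul_card_image_of_maps_to (f := ρ)
  · intro b hb
    rw [Finset.mem_filter] at hb
    obtain ⟨h1, h2, h3⟩ := hρ b hb.2
    rw [Finset.mem_filter, P.mem_cusp hm]
    exact ⟨⟨h1, h2 ▸ hs⟩, h2⟩
  · intro r _
    by_cases hne : ∃ b₀, sa q s b₀ = s ∧ ρ b₀ = r
    · obtain ⟨b₀, hb₀, hb₀r⟩ := hne
      have hcard := card_orb q s hq hs1 b₀
      rw [hb₀] at hcard
      refine le_trans (Finset.card_le_card ?_) hcard.le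
      intro b hb
      rw [Finset.mem_filter, Finset.mem_filter] at hb
      rw [Finset.mem_filter]
      refine ⟨hb.1.1, ?_⟩
      intro h0
      have h1 := hRR s b₀ b hs1 hsm
      rw [h0] at h1
      obtain ⟨-, -, h3⟩ := hρ b hb.1.2
      obtain ⟨-, -, h3'⟩ := hρ b₀ hb₀
      rw [hb.2] at h3
      rw [hb₀r] at h3'
      rcases h3 with h | h <;> rcases h3' with h' | h' <;> rw [h, h'] at h1 <;>
        simp [inn_neg_left, inn_neg_right, inn_b_b] at h1
    · rw [Finset.card_eq_zero.2]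
      · omega
      · rw [Finset.filter_eq_empty_iff]
        intro b hb hbr
        rw [Finset.mem_filter] at hb
        exact hne ⟨b, hb.2, hbr⟩

include hq hm in
/-- step C -/
theorem sum_inv_sa : ∑ a ∈ Finset.range (q ^ m - 1), (1 / (sa q m a : ℚ)) =
    ∑ s ∈ m.divisors, (nA q s : ℚ) / s := by
  classical
  rw [← Finset.sum_fiberwise_of_maps_to (g := fun a => sa q m a) (t := m.divisors)
    (fun a _ => Nat.mem_divisors.2 ⟨(sa_pos q m hq hm a).2, by omega⟩)]
  apply Finset.sum_congr rfl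
  intro s hs
  have hs' := Nat.dvd_of_mem_divisors hs
  rw [Finset.sum_congr rfl (g := fun _ => (1 / (s : ℚ)))]
  · rw [Finset.sum_const, card_level q m hq hm s hs']
    unfold nA
    rw [nsmul_eq_mul]
    ring
  · intro a ha
    rw [Finset.mem_filter] at ha
    rw [ha.2]

include hq hm in
theorem sum_nA : ∑ s ∈ m.divisors, (nA q s : ℚ) = (q ^ m - 1 : ℕ) := by
  classical
  rw [← Finset.card_range (q ^ m - 1), Finset.card_eq_sum_card_fiberwise
    (f := fun a => sa q m a) (t := m.divisors)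
    (fun a _ => Finset.mem_coe.2 (Nat.mem_divisors.2 ⟨(sa_pos q m hq hm a).2, by omega⟩))]
  push_cast
  apply Finset.sum_congr rfl
  intro s hs
  rw [card_level q m hq hm s (Nat.dvd_of_mem_divisors hs)]
  rfl

include hm in
theorem sum_cusp (φ : ℕ → ℚ) : ∑ r ∈ P.cusp m, φ (P.deg r) =
    ∑ s ∈ m.divisors, (P.nC m s : ℚ) * φ s := by
  classical
  rw [← Finset.sum_fiberwise_of_maps_to (g := P.deg) (t := m.divisors)
    (fun r hr => Nat.mem_divisors.2 ⟨((P.mem_cusp hm).1 hr).2, by omega⟩)]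
  apply Finset.sum_congr rfl
  intro s _
  rw [Finset.sum_congr rfl (g := fun _ => φ s)]
  · rw [Finset.sum_const, nsmul_eq_mul]
    rfl
  · intro r hr
    rw [Finset.mem_filter] at hr
    rw [hr.2]

end

/-- **Identification.** -/
theorem ident_proof (q m : ℕ) (hq : 2 ≤ q) (hm : 1 ≤ m) (R : ℕ → ℕ → A)
    (hRp : ∀ s a, 1 ≤ s → s ≤ m → P.Prim (R s a))
    (hRh : ∀ s a, 1 ≤ s → s ≤ m → P.Hom s (R s a))
    (hRR : ∀ s a b, 1 ≤ s → s ≤ m → P.inn (R s a) (R s b) = (orb q s a b : ℤ))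
    (hpars : ∀ x, P.Prim x → P.Hom m x → (m : ℤ) * P.inn x x =
      ∑ a ∈ Finset.range (q ^ m - 1), P.inn x (R m a) ^ 2)
    (pf hf : I → A)
    (hp : ∀ r, P.PrimIdx r → P.deg r ∣ m → P.Prim (pf r) ∧ P.Hom m (pf r))
    (hpp : ∀ r, P.PrimIdx r → P.deg r ∣ m → P.inn (pf r) (pf r) = (m / P.deg r : ℕ))
    (hpo : ∀ r r', P.PrimIdx r → P.PrimIdx r' → P.deg r ∣ m → P.deg r' ∣ m → r ≠ r' →
      P.inn (pf r) (pf r') = 0)
    (hph : ∀ r, P.PrimIdx r → P.deg r ∣ m → ∀ x, P.Prim x →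
      P.inn x (pf r) = (m / P.deg r : ℕ) * P.inn x (hf r)) :
    (∀ a < q ^ m - 1, ∃ r, P.PrimIdx r ∧ P.deg r = sa q m a ∧
      (R m a = pf r ∨ R m a = - pf r)) ∧
    (∀ r, P.PrimIdx r → P.deg r ∣ m →
      Nat.card {a : ℕ // a < q ^ m - 1 ∧ (R m a = pf r ∨ R m a = - pf r)} = P.deg r) := by
  classical
  set κ : ℕ → I → ℤ := fun a r => P.inn (R m a) (hf r) with hκ
  set C := P.cusp m with hCdef
  set Q := Finset.range (q ^ m - 1) with hQ
  have hC : ∀ r ∈ C, P.PrimIdx r ∧ P.deg r ∣ m := fun r hr => (P.mem_cusp hm).1 hr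
  have hd1 : ∀ r ∈ C, 1 ≤ P.deg r := fun r hr => (hC r hr).1.1
  have hmd : ∀ r ∈ C, 1 ≤ m / P.deg r := fun r hr =>
    Nat.div_pos (Nat.le_of_dvd hm (hC r hr).2) (hd1 r hr)
  have hmdmul : ∀ r ∈ C, m / P.deg r * P.deg r = m := fun r hr => Nat.div_mul_cancel (hC r hr).2
  have hsa1 : ∀ a, 1 ≤ sa q m a := fun a => (sa_pos q m hq hm a).1
  -- inner products
  have hinn : ∀ a, ∀ r ∈ C, P.inn (R m a) (pf r) = (m / P.deg r : ℕ) * κ a r := fun a r hr =>
    hph r (hC r hr).1 (hC r hr).2 _ (hRp m a hm le_rfl)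
  -- Parseval
  have hpar : ∀ r ∈ C, ∑ a ∈ Q, κ a r ^ 2 = P.deg r := by
    intro r hr
    have h1 := hpars (pf r) (hp r (hC r hr).1 (hC r hr).2).1 (hp r (hC r hr).1 (hC r hr).2).2
    rw [hpp r (hC r hr).1 (hC r hr).2] at h1
    have h2 : ∀ a ∈ Q, P.inn (pf r) (R m a) ^ 2 = ((m / P.deg r : ℕ) : ℤ) ^ 2 * κ a r ^ 2 := by
      intro a _
      rw [P.inn_comm, hinn a r hr, mul_pow]
    rw [Finset.sum_congr rfl h2, ← Finset.mul_sum] at h1
    have h3 : ((m / P.deg r : ℕ) : ℤ) ≠ 0 := by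
      have := hmd r hr
      omega
    have h4 : (m : ℤ) = (m / P.deg r : ℕ) * P.deg r := by
      exact_mod_cast (hmdmul r hr).symm
    have h5 : ((m / P.deg r : ℕ) : ℤ) ^ 2 * ∑ a ∈ Q, κ a r ^ 2 =
        ((m / P.deg r : ℕ) : ℤ) ^ 2 * P.deg r := by
      rw [← h1]
      conv_lhs => rw [h4]
      ring
    exact mul_left_cancel₀ (pow_ne_zero 2 h3) h5
  -- Bessel
  set D : ℕ → A := fun a => R m a - ∑ r ∈ C, κ a r • pf r with hD
  have hDD : ∀ a, P.inn (D a) (D a) = orb q m a a - ∑ r ∈ C, (m / P.deg r : ℕ) * κ a r ^ 2 := by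
    intro a
    have h1 : P.inn (R m a) (∑ r ∈ C, κ a r • pf r) = ∑ r ∈ C, (m / P.deg r : ℕ) * κ a r ^ 2 := by
      rw [inn_sum_right]
      apply Finset.sum_congr rfl
      intro r hr
      rw [inn_zsmul_right, hinn a r hr]
      ring
    have h2 : P.inn (∑ r ∈ C, κ a r • pf r) (∑ r ∈ C, κ a r • pf r) =
        ∑ r ∈ C, (m / P.deg r : ℕ) * κ a r ^ 2 := by
      rw [inn_sum_left]
      apply Finset.sum_congr rfl
      intro r hr
      rw [inn_zsmul_left, inn_sum_right, Finset.sum_eq_single_of_mem r hr]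
      · rw [inn_zsmul_right, hpp r (hC r hr).1 (hC r hr).2]
        ring
      · intro r' hr' hne
        rw [inn_zsmul_right, hpo r r' (hC r hr).1 (hC r' hr').1 (hC r hr).2 (hC r' hr').2
          (Ne.symm hne), mul_zero]
    have h3 : P.inn (∑ r ∈ C, κ a r • pf r) (R m a) = ∑ r ∈ C, (m / P.deg r : ℕ) * κ a r ^ 2 := by
      rw [P.inn_comm, h1]
    show P.inn (R m a - _) (R m a - _) = _
    rw [inn_sub_left, inn_sub_right, inn_sub_right, h1, h2, h3, hRR m a a hm le_rfl]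
    ring
  -- weights
  have hmQ : (m : ℚ) ≠ 0 := by
    have : m ≠ 0 := by omega
    exact_mod_cast this
  have hdQ : ∀ r ∈ C, (P.deg r : ℚ) ≠ 0 := by
    intro r hr
    have := hd1 r hr
    have : P.deg r ≠ 0 := by omega
    exact_mod_cast this
  have hsaQ : ∀ a, (sa q m a : ℚ) ≠ 0 := by
    intro a
    have := hsa1 a
    have : sa q m a ≠ 0 := by omega
    exact_mod_cast this
  have hDDQ : ∀ a, ((P.inn (D a) (D a) : ℤ) : ℚ) =
      m * (1 / (sa q m a : ℚ) - ∑ r ∈ C, (κ a r : ℚ) ^ 2 / P.deg r) := by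
    intro a
    rw [hDD a, Int.cast_sub, Int.cast_sum, Int.cast_natCast, mul_sub, Finset.mul_sum]
    congr 1
    · have h1 := orb_self q m hq hm a
      have h2 : (orb q m a a : ℚ) * sa q m a = m := by exact_mod_cast h1
      rw [mul_one_div, eq_div_iff (hsaQ a), h2]
    · apply Finset.sum_congr rfl
      intro r hr
      have h1 : ((m / P.deg r : ℕ) : ℚ) * P.deg r = m := by exact_mod_cast hmdmul r hr
      have h2 := hdQ r hr
      rw [Int.cast_mul, Int.cast_natCast, Int.cast_pow, ← h1]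
      field_simp
  have hbes : ∀ a, ∑ r ∈ C, (κ a r : ℚ) ^ 2 / P.deg r ≤ 1 / (sa q m a : ℚ) := by
    intro a
    have h1 : (0 : ℚ) ≤ ((P.inn (D a) (D a) : ℤ) : ℚ) := by
      exact_mod_cast P.inn_self_nonneg (D a)
    rw [hDDQ a] at h1
    have h2 : (0 : ℚ) < m := by
      have : 0 < m := by omega
      exact_mod_cast this
    have h3 := nonneg_of_mul_nonneg_right h1 h2
    linarith
  -- double counting
  have hsum1 : ∑ a ∈ Q, ∑ r ∈ C, (κ a r : ℚ) ^ 2 / P.deg r = C.card := by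
    rw [Finset.sum_comm]
    have : ∀ r ∈ C, ∑ a ∈ Q, (κ a r : ℚ) ^ 2 / P.deg r = 1 := by
      intro r hr
      rw [← Finset.sum_div, div_eq_one_iff_eq (hdQ r hr)]
      exact_mod_cast hpar r hr
    rw [Finset.sum_congr rfl this]
    simp
  have hsum2 : ∑ a ∈ Q, 1 / (sa q m a : ℚ) ≤ C.card := by
    rw [sum_inv_sa q m hq hm]
    have h1 := P.sum_cusp m hm (fun _ => 1)
    simp only [mul_one, Finset.sum_const, nsmul_eq_mul] at h1
    rw [hCdef, h1]
    apply Finset.sum_le_sum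
    intro s hs
    have hs' := Nat.dvd_of_mem_divisors hs
    have hs1 : 0 < s := Nat.pos_of_dvd_of_pos hs' hm
    have hs2 : (0 : ℚ) < s := by exact_mod_cast hs1
    rw [div_le_iff₀ hs2]
    have := P.nA_le q m hq hm R hRp hRh hRR s hs'
    rw [mul_comm]
    exact_mod_cast this
  have heq : ∀ a ∈ Q, ∑ r ∈ C, (κ a r : ℚ) ^ 2 / P.deg r = 1 / (sa q m a : ℚ) := by
    have h1 : ∑ a ∈ Q, ∑ r ∈ C, (κ a r : ℚ) ^ 2 / P.deg r = ∑ a ∈ Q, 1 / (sa q m a : ℚ) :=
      le_antisymm (Finset.sum_le_sum (fun a _ => hbes a)) (by rw [hsum1]; exact hsum2)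
    exact (Finset.sum_eq_sum_iff_of_le (fun a _ => hbes a)).1 h1
  have hsum3 : ∑ a ∈ Q, 1 / (sa q m a : ℚ) = C.card := by
    rw [← hsum1]
    exact (Finset.sum_congr rfl heq).symm
  have hN : ∀ s ∈ m.divisors, (nA q s : ℚ) / s = P.nC m s := by
    have h1 : ∑ s ∈ m.divisors, (nA q s : ℚ) / s = ∑ s ∈ m.divisors, (P.nC m s : ℚ) := by
      have h2 := P.sum_cusp m hm (fun _ => 1)
      simp only [mul_one, Finset.sum_const, nsmul_eq_mul] at h2
      rw [← sum_inv_sa q m hq hm, hsum3, hCdef, h2]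
    have h3 : ∀ s ∈ m.divisors, (nA q s : ℚ) / s ≤ P.nC m s := by
      intro s hs
      have hs' := Nat.dvd_of_mem_divisors hs
      have hs1 : 0 < s := Nat.pos_of_dvd_of_pos hs' hm
      have hs2 : (0 : ℚ) < s := by exact_mod_cast hs1
      rw [div_le_iff₀ hs2]
      have := P.nA_le q m hq hm R hRp hRh hRR s hs'
      rw [mul_comm]
      exact_mod_cast this
    exact (Finset.sum_eq_sum_iff_of_le h3).1 h1
  have hdegsum : ∑ r ∈ C, (P.deg r : ℚ) = (q ^ m - 1 : ℕ) := by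
    rw [hCdef, P.sum_cusp m hm (fun s => (s : ℚ)), ← sum_nA q m hq hm]
    apply Finset.sum_congr rfl
    intro s hs
    have hs' := Nat.dvd_of_mem_divisors hs
    have hs1 : 0 < s := Nat.pos_of_dvd_of_pos hs' hm
    have hs2 : (s : ℚ) ≠ 0 := by
      have : s ≠ 0 := by omega
      exact_mod_cast this
    rw [← hN s hs]
    field_simp
  -- `κ ≠ 0` implies `deg r = sa a`
  have hterm : ∀ a ∈ Q, ∀ r ∈ C, 0 ≤ (κ a r : ℚ) ^ 2 / P.deg r * (P.deg r - sa q m a) := by
    intro a ha r hr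
    by_cases h0 : κ a r = 0
    · rw [h0]; simp
    · have hpos : (0 : ℚ) < P.deg r := by
        have := hd1 r hr
        have : 0 < P.deg r := by omega
        exact_mod_cast this
      have hspos : (0 : ℚ) < sa q m a := by
        have := hsa1 a
        have : 0 < sa q m a := by omega
        exact_mod_cast this
      have h1 : (κ a r : ℚ) ^ 2 / P.deg r ≤ 1 / (sa q m a : ℚ) := by
        rw [← heq a ha]
        exact Finset.single_le_sum (f := fun r => (κ a r : ℚ) ^ 2 / P.deg r)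
          (fun r _ => by positivity) hr
      have h2 : (1 : ℚ) ≤ (κ a r : ℚ) ^ 2 := by
        have : 0 < κ a r ^ 2 := by positivity
        have : 1 ≤ κ a r ^ 2 := by omega
        exact_mod_cast this
      have h3 : (1 : ℚ) / P.deg r ≤ 1 / (sa q m a : ℚ) :=
        le_trans (div_le_div_of_nonneg_right h2 hpos.le) h1
      have h4 : (sa q m a : ℚ) ≤ P.deg r := by
        rw [div_le_div_iff₀ hpos hspos] at h3
        linarith
      have h5 : (0 : ℚ) ≤ P.deg r - sa q m a := by linarith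
      positivity
  have hzero : ∑ a ∈ Q, ∑ r ∈ C, (κ a r : ℚ) ^ 2 / P.deg r * (P.deg r - sa q m a) = 0 := by
    have h1 : ∀ a ∈ Q, ∑ r ∈ C, (κ a r : ℚ) ^ 2 / P.deg r * (P.deg r - sa q m a) =
        ∑ r ∈ C, (κ a r : ℚ) ^ 2 - 1 := by
      intro a ha
      have h2 : ∑ r ∈ C, (κ a r : ℚ) ^ 2 / P.deg r * (P.deg r - sa q m a) =
          ∑ r ∈ C, (κ a r : ℚ) ^ 2 - (∑ r ∈ C, (κ a r : ℚ) ^ 2 / P.deg r) * sa q m a := by
        rw [Finset.sum_mul, ← Finset.sum_sub_distrib]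
        apply Finset.sum_congr rfl
        intro r hr
        have := hdQ r hr
        field_simp
      rw [h2, heq a ha, one_div, inv_mul_cancel₀ (hsaQ a)]
    rw [Finset.sum_congr rfl h1, Finset.sum_sub_distrib, Finset.sum_comm]
    have h2 : ∀ r ∈ C, ∑ a ∈ Q, (κ a r : ℚ) ^ 2 = P.deg r := by
      intro r hr
      exact_mod_cast hpar r hr
    rw [Finset.sum_congr rfl h2, hdegsum]
    simp [hQ]
  have hall : ∀ a ∈ Q, ∀ r ∈ C, κ a r ≠ 0 → P.deg r = sa q m a := by
    intro a ha r hr h0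
    have h1 := (Finset.sum_eq_zero_iff_of_nonneg
      (fun a ha => Finset.sum_nonneg (fun r hr => hterm a ha r hr))).1 hzero a ha
    have h2 := (Finset.sum_eq_zero_iff_of_nonneg (fun r hr => hterm a ha r hr)).1 h1 r hr
    have h3 : (κ a r : ℚ) ^ 2 / P.deg r ≠ 0 := by
      have : (κ a r : ℚ) ≠ 0 := by exact_mod_cast h0
      exact div_ne_zero (pow_ne_zero 2 this) (hdQ r hr)
    have h4 := (mul_eq_zero.1 h2).resolve_left h3
    have h5 : (P.deg r : ℚ) = sa q m a := by linarith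
    exact_mod_cast h5
  -- exactly one
  have hone : ∀ a ∈ Q, ∑ r ∈ C, κ a r ^ 2 = 1 := by
    intro a ha
    have h1 : ∑ r ∈ C, (κ a r : ℚ) ^ 2 / P.deg r = (∑ r ∈ C, (κ a r : ℚ) ^ 2) / sa q m a := by
      rw [Finset.sum_div]
      apply Finset.sum_congr rfl
      intro r hr
      by_cases h0 : κ a r = 0
      · rw [h0]; simp
      · rw [hall a ha r hr h0]
    rw [heq a ha] at h1
    have h2 : (∑ r ∈ C, (κ a r : ℚ) ^ 2) = 1 := by
      have := hsaQ a
      field_simp at h1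
      exact h1.symm
    exact_mod_cast h2
  have hex : ∀ a ∈ Q, ∃ r ∈ C, (κ a r = 1 ∨ κ a r = -1) ∧ ∀ r' ∈ C, r' ≠ r → κ a r' = 0 := by
    intro a ha
    have h1 := hone a ha
    obtain ⟨r, hr, hne⟩ := Finset.exists_ne_zero_of_sum_ne_zero (h1.symm ▸ one_ne_zero)
    have hsplit := Finset.add_sum_erase C (fun r => κ a r ^ 2) hr
    rw [h1] at hsplit
    have hnn : 0 ≤ ∑ r' ∈ C.erase r, κ a r' ^ 2 := Finset.sum_nonneg (fun _ _ => sq_nonneg _)
    have hpos : 0 < κ a r ^ 2 := lt_of_le_of_ne (sq_nonneg _) (Ne.symm hne)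
    have h2 : κ a r ^ 2 = 1 := by omega
    have h3 : ∑ r' ∈ C.erase r, κ a r' ^ 2 = 0 := by omega
    refine ⟨r, hr, sq_eq_one_iff.1 h2, ?_⟩
    intro r' hr' hne'
    have h4 := (Finset.sum_eq_zero_iff_of_nonneg (fun _ _ => sq_nonneg _)).1 h3 r'
      (Finset.mem_erase.2 ⟨hne', hr'⟩)
    exact pow_eq_zero_iff (two_ne_zero) |>.1 h4
  have hDz : ∀ a ∈ Q, R m a = ∑ r ∈ C, κ a r • pf r := by
    intro a ha
    have h1 := hDDQ a
    rw [heq a ha, sub_self, mul_zero] at h1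
    have h2 : P.inn (D a) (D a) = 0 := by exact_mod_cast h1
    exact sub_eq_zero.1 (P.inn_self_eq_zero h2)
  have hR : ∀ a ∈ Q, ∀ r ∈ C, κ a r ≠ 0 → (R m a = pf r ∨ R m a = - pf r) := by
    intro a ha r hr h0
    obtain ⟨r₀, hr₀, h1, h2⟩ := hex a ha
    have : r = r₀ := by
      by_contra hne
      exact h0 (h2 r hr hne)
    subst this
    have h3 := hDz a ha
    rw [Finset.sum_eq_single_of_mem r hr (fun r' hr' hne => by rw [h2 r' hr' hne, zero_smul])] at h3
    rcases h1 with h1 | h1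
    · left; rw [h3, h1, one_smul]
    · right; rw [h3, h1, neg_one_zsmul]
  refine ⟨?_, ?_⟩
  · intro a ha
    have ha' : a ∈ Q := Finset.mem_range.2 ha
    obtain ⟨r, hr, h1, -⟩ := hex a ha'
    have h0 : κ a r ≠ 0 := by rcases h1 with h | h <;> rw [h] <;> norm_num
    exact ⟨r, (hC r hr).1, hall a ha' r hr h0, hR a ha' r hr h0⟩
  · intro r hr hd
    have hrC : r ∈ C := (P.mem_cusp hm).2 ⟨hr, hd⟩
    have h1 : Nat.card {a : ℕ // a < q ^ m - 1 ∧ (R m a = pf r ∨ R m a = - pf r)} =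
        (Q.filter (fun a => κ a r ≠ 0)).card := by
      apply Nat.subtype_card
      intro a
      rw [Finset.mem_filter, hQ, Finset.mem_range]
      constructor
      · rintro ⟨ha, h0⟩
        exact ⟨ha, hR a (Finset.mem_range.2 ha) r hrC h0⟩
      · rintro ⟨ha, h⟩
        refine ⟨ha, ?_⟩
        intro h0
        have h2 := hinn a r hrC
        rw [h0, mul_zero] at h2
        have h3 := hpp r hr hd
        have h4 := hmd r hrC
        rcases h with h | h
        · rw [h, h3] at h2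
          omega
        · rw [h, inn_neg_left, h3] at h2
          omega
    rw [h1]
    have h2 : ∀ a ∈ Q, κ a r ^ 2 = if κ a r ≠ 0 then 1 else 0 := by
      intro a ha
      by_cases h0 : κ a r = 0
      · rw [if_neg (not_not.2 h0), h0]; norm_num
      · rw [if_pos h0]
        obtain ⟨r₀, hr₀, h1, h2⟩ := hex a ha
        have : r = r₀ := by
          by_contra hne
          exact h0 (h2 r hrC hne)
        subst this
        exact sq_eq_one_iff.2 h1
    have h3 := hpar r hrC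
    rw [Finset.sum_congr rfl h2, Finset.sum_ite, Finset.sum_const_zero, add_zero,
      Finset.sum_const, nsmul_eq_mul, mul_one] at h3
    exact_mod_cast h3

end Pool.Agent.REll.PSH
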