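import Pool.Agent.Lib_helper45.REll.Defs3

/-!
# The abstract inner product
-/

open scoped BigOperators ComplexConjugate
open Polynomial

namespace Pool.Agent.REll
namespace PSH
universe u v
variable {I : Type u} {A : Type v} [CommRing A] (P : PSH I A)

theorem inn_b_right (x : A) (i : I) : P.inn x (P.b i) = P.b.repr x i := by
  classical
  unfold inn
  rw [Finsupp.sum, P.b.repr_self]
  by_cases h : i ∈ (P.b.repr x).support
  · rw [Finset.sum_eq_single_of_mem i h]
    · simp
    · intro j _ hj
      rw [Finsupp.single_eq_of_ne hj, mul_zero]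
  · rw [Finset.sum_eq_zero]
    · exact (Finsupp.notMem_support_iff.1 h).symm
    · intro j hj
      rw [Finsupp.single_eq_of_ne (by rintro rfl; exact h hj), mul_zero]

theorem inn_eq_sum (x y : A) (s : Finset I) (hs : (P.b.repr x).support ⊆ s) :
    P.inn x y = ∑ i ∈ s, P.b.repr x i * P.b.repr y i := by
  unfold inn Finsupp.sum
  apply Finset.sum_subset hs
  intro i _ hi
  simp [Finsupp.notMem_support_iff.1 hi]

theorem inn_comm (x y : A) : P.inn x y = P.inn y x := by
  classical
  rw [P.inn_eq_sum x y ((P.b.repr x).support ∪ (P.b.repr y).support) Finset.subset_union_left,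
    P.inn_eq_sum y x ((P.b.repr x).support ∪ (P.b.repr y).support) Finset.subset_union_right]
  exact Finset.sum_congr rfl (fun i _ => mul_comm _ _)

theorem inn_add_left (x x' y : A) : P.inn (x + x') y = P.inn x y + P.inn x' y := by
  classical
  have h : (P.b.repr (x + x')).support ⊆ (P.b.repr x).support ∪ (P.b.repr x').support := by
    rw [map_add]; exact Finsupp.support_add
  rw [P.inn_eq_sum _ y _ h, P.inn_eq_sum x y _ Finset.subset_union_left,
    P.inn_eq_sum x' y _ Finset.subset_union_right, ← Finset.sum_add_distrib]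
  apply Finset.sum_congr rfl
  intro i _
  rw [map_add, Finsupp.add_apply, add_mul]

/-- `inn` as a biadditive map -/
noncomputable def innL (y : A) : A →+ ℤ where
  toFun x := P.inn x y
  map_zero' := by unfold inn; simp
  map_add' x x' := P.inn_add_left x x' y

theorem inn_sum_left {ι : Type*} (s : Finset ι) (f : ι → A) (y : A) :
    P.inn (∑ i ∈ s, f i) y = ∑ i ∈ s, P.inn (f i) y := map_sum (P.innL y) f s

theorem inn_zsmul_left (a : ℤ) (x y : A) : P.inn (a • x) y = a * P.inn x y := by
  have := map_zsmul (P.innL y) a x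
  simpa [innL] using this

theorem inn_neg_left (x y : A) : P.inn (-x) y = - P.inn x y := map_neg (P.innL y) x

theorem inn_sum_right {ι : Type*} (s : Finset ι) (f : ι → A) (y : A) :
    P.inn y (∑ i ∈ s, f i) = ∑ i ∈ s, P.inn y (f i) := by
  rw [inn_comm, inn_sum_left]
  exact Finset.sum_congr rfl (fun i _ => P.inn_comm _ _)

theorem inn_zsmul_right (a : ℤ) (x y : A) : P.inn y (a • x) = a * P.inn y x := by
  rw [inn_comm, inn_zsmul_left, inn_comm]

open Classical in
theorem inn_b_b (i j : I) : P.inn (P.b i) (P.b j) = if i = j then 1 else 0 := by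
  rw [inn_b_right, P.b.repr_self]
  by_cases h : i = j
  · subst h; simp
  · rw [if_neg h, Finsupp.single_eq_of_ne (Ne.symm h)]

theorem inn_add_right (x y y' : A) : P.inn x (y + y') = P.inn x y + P.inn x y' := by
  rw [P.inn_comm, inn_add_left, P.inn_comm y x, P.inn_comm y' x]

theorem inn_neg_right (x y : A) : P.inn x (-y) = - P.inn x y := by
  rw [P.inn_comm, inn_neg_left, P.inn_comm]

theorem inn_sub_left (x x' y : A) : P.inn (x - x') y = P.inn x y - P.inn x' y :=
  map_sub (P.innL y) x x'

theorem inn_sub_right (x y y' : A) : P.inn x (y - y') = P.inn x y - P.inn x y' := by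
  rw [P.inn_comm, inn_sub_left, P.inn_comm y x, P.inn_comm y' x]

theorem inn_self_eq (x : A) : P.inn x x = ∑ i ∈ (P.b.repr x).support, P.b.repr x i ^ 2 := by
  rw [P.inn_eq_sum x x _ (Finset.Subset.refl _)]
  exact Finset.sum_congr rfl (fun i _ => (pow_two _).symm)

theorem inn_self_nonneg (x : A) : 0 ≤ P.inn x x := by
  rw [inn_self_eq]
  exact Finset.sum_nonneg (fun i _ => sq_nonneg _)

theorem inn_self_eq_zero {x : A} (h : P.inn x x = 0) : x = 0 := by
  rw [inn_self_eq, Finset.sum_eq_zero_iff_of_nonneg (fun i _ => sq_nonneg _)] at h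
  have h1 : P.b.repr x = 0 := by
    ext i
    by_cases hi : i ∈ (P.b.repr x).support
    · simpa using h i hi
    · simpa using hi
  simpa using h1

/-- structure constants as inner products -/
theorem inn_mul_b (i j k : I) : P.inn (P.b i * P.b j) (P.b k) = P.c i j k := by
  classical
  have hfin : (Function.support fun k => (P.c i j k : ℤ) • P.b k).Finite := by
    apply (P.fin (P.deg i + P.deg j)).subset
    intro k hk
    apply P.c_deg
    intro h0
    apply hk
    simp [h0]
  rw [P.mul, inn_b_right, finsum_eq_sum_of_support_toFinset_subset _ hfin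
    (s := insert k hfin.toFinset) (by intro k hk; exact Finset.mem_insert_of_mem hk),
    map_sum, Finset.sum_apply', Finset.sum_eq_single_of_mem k (Finset.mem_insert_self _ _)]
  · rw [map_zsmul, Finsupp.smul_apply, P.b.repr_self, Finsupp.single_eq_same,
      smul_eq_mul, mul_one]
  · intro l _ hl
    rw [map_zsmul, Finsupp.smul_apply, P.b.repr_self,
      Finsupp.single_eq_of_ne (Ne.symm hl), smul_zero]

theorem sq_eq_one_iff_of_side_eq {a : ℤ} (h : a ^ 2 = 1) : a = 1 ∨ a = -1 := sq_eq_one_iff.1 h

/-- an element of norm one is `±` a basis element -/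
theorem exists_of_norm_one {x : A} (h : P.inn x x = 1) :
    ∃ i, x = P.b i ∨ x = - P.b i := by
  classical
  have h0 := h
  rw [inn_self_eq] at h
  have hne : (P.b.repr x).support.Nonempty := by
    by_contra hne
    rw [Finset.not_nonempty_iff_eq_empty] at hne
    rw [hne, Finset.sum_empty] at h
    exact zero_ne_one h
  obtain ⟨i, hi⟩ := hne
  have hi1 : 1 ≤ P.b.repr x i ^ 2 := by
    have h1 : P.b.repr x i ≠ 0 := Finsupp.mem_support_iff.1 hi
    have : 0 < P.b.repr x i ^ 2 := by positivity
    omega
  have hsum : ∑ j ∈ (P.b.repr x).support.erase i, P.b.repr x j ^ 2 = 0 := by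
    have h1 := Finset.add_sum_erase (P.b.repr x).support (fun j => P.b.repr x j ^ 2) hi
    have h2 : 0 ≤ ∑ j ∈ (P.b.repr x).support.erase i, P.b.repr x j ^ 2 :=
      Finset.sum_nonneg (fun j _ => sq_nonneg _)
    omega
  have hval : P.b.repr x i ^ 2 = 1 := by
    have h1 := Finset.add_sum_erase (P.b.repr x).support (fun j => P.b.repr x j ^ 2) hi
    omega
  rw [Finset.sum_eq_zero_iff_of_nonneg (fun j _ => sq_nonneg _)] at hsum
  have hoth : ∀ j, j ≠ i → P.b.repr x j = 0 := by
    intro j hj
    by_cases hjs : j ∈ (P.b.repr x).support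
    · have := hsum j (Finset.mem_erase.2 ⟨hj, hjs⟩)
      simpa using this
    · exact Finsupp.notMem_support_iff.1 hjs
  have hx : x = P.b.repr x i • P.b i := by
    apply P.b.repr.injective
    ext j
    rw [map_zsmul, Finsupp.smul_apply, P.b.repr_self]
    by_cases hj : j = i
    · subst hj; simp
    · rw [hoth j hj, Finsupp.single_eq_of_ne hj, smul_zero]
  refine ⟨i, ?_⟩
  rcases sq_eq_one_iff_of_side_eq hval with h1 | h1
  · left; rw [hx, h1, one_smul]
  · right; rw [hx, h1, neg_one_zsmul]

end PSH
end Pool.Agent.REll
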