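import Pool.Agent.Lib_helper45.REll.Api

/-!
# Irreducible characters of `GL_n(F)` as elements of `CF F`
-/

open scoped BigOperators ComplexConjugate
open Polynomial

namespace Pool.Agent.REll
variable {F : Type} [Field F] [Finite F]

open CF

/-- extension of a class function on `GL_n` to all pairs -/
noncomputable def ofFun (n : ℕ) (φ : G F n → ℂ) (hφ : ∀ x g, φ (x * g * x⁻¹) = φ g) : CF F where
  toFun V _ _ _ g := open Classical in
    if h : Module.finrank F V = n then φ (toStd (Classical.choice (exists_std V h)) g) else 0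
  inv' V V' _ _ _ _ _ _ e g g' he := by
    by_cases h : Module.finrank F V = n
    · have h' : Module.finrank F V' = n := by rw [← e.finrank_eq]; exact h
      rw [dif_pos h, dif_pos h']
      set a := Classical.choice (exists_std (F := F) V h)
      set b := Classical.choice (exists_std (F := F) V' h')
      rw [← hφ ((a.symm.trans e).trans b) (toStd a g)]
      congr 1
      ext v : 1
      simp [toStd, he, LinearEquiv.mul_apply, LinearEquiv.coe_inv]
    · have h' : ¬ Module.finrank F V' = n := by rw [← e.finrank_eq]; exact h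
      rw [dif_neg h, dif_neg h']

theorem ofFun_std (n : ℕ) (φ : G F n → ℂ) (hφ : ∀ x g, φ (x * g * x⁻¹) = φ g) (g : G F n) :
    ofFun n φ hφ (Fin n → F) g = φ g := by
  show (open Classical in if h : Module.finrank F (Fin n → F) = n then
    φ (toStd (Classical.choice (exists_std (Fin n → F) h)) g) else 0) = φ g
  have h : Module.finrank F (Fin n → F) = n := by simp
  rw [dif_pos h]
  set a := Classical.choice (exists_std (F := F) (Fin n → F) h)
  rw [← hφ a g]
  congr 1

theorem isHom_ofFun (n : ℕ) (φ : G F n → ℂ) (hφ : ∀ x g, φ (x * g * x⁻¹) = φ g) :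
    (ofFun n φ hφ).IsHom n := by
  intro V _ _ _ g hV
  show (open Classical in if h : Module.finrank F V = n then
    φ (toStd (Classical.choice (exists_std V h)) g) else 0) = 0
  rw [dif_neg hV]

theorem conj_inv (f : CF F) (n : ℕ) (x g : G F n) :
    f (Fin n → F) (x * g * x⁻¹) = f (Fin n → F) g := by
  symm
  apply f.inv' _ _ x
  intro v
  simp [LinearEquiv.mul_apply]

theorem irrChar_conj {Γ : Type} [Group Γ] {χ : Γ → ℂ} (hχ : χ ∈ IrrChar Γ) (x g : Γ) :
    χ (x * g * x⁻¹) = χ g := by
  obtain ⟨d, ρ, -, rfl⟩ := hχ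
  exact Representation.char_conj ρ g x

/-- restriction of an element of `CF` to the standard space -/
def res (n : ℕ) (f : CF F) : G F n → ℂ := fun g => f (Fin n → F) g

theorem res_injOn (n : ℕ) : Set.InjOn (res n) (Irr F n) := by
  intro f hf h hh hfh
  exact hom_ext hf.1 hh.1 (fun g => congrFun hfh g)

theorem irr_finite (n : ℕ) : (Irr F n).Finite := by
  apply Set.Finite.of_finite_image _ (res_injOn n)
  apply (irrChar_finite (G F n)).subset
  rintro _ ⟨f, hf, rfl⟩
  exact hf.2

theorem exists_irr (n : ℕ) {φ : G F n → ℂ} (hφ : φ ∈ IrrChar (G F n)) :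
    ∃ χ ∈ Irr F n, res n χ = φ := by
  refine ⟨ofFun n φ (irrChar_conj hφ), ⟨isHom_ofFun _ _ _, ?_⟩, ?_⟩
  · convert hφ using 1
    ext g
    exact ofFun_std _ _ _ g
  · ext g
    exact ofFun_std _ _ _ g

/-- the finite set of irreducible characters in degree `n` -/
noncomputable def irrF (F : Type) [Field F] [Finite F] (n : ℕ) : Finset (CF F) :=
  (irr_finite (F := F) n).toFinset

theorem mem_irrF {n : ℕ} {χ : CF F} : χ ∈ irrF F n ↔ χ ∈ Irr F n := by simp [irrF]

open Classical in
theorem ip_irr {n : ℕ} {χ ψ : CF F} (hχ : χ ∈ Irr F n) (hψ : ψ ∈ Irr F n) :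
    ip n χ ψ = if χ = ψ then 1 else 0 := by
  rw [ip_eq]
  rw [irrChar_ortho hχ.2 hψ.2]
  by_cases h : χ = ψ
  · subst h; simp
  · rw [if_neg h, if_neg]
    intro h'
    exact h (res_injOn n hχ hψ h')

theorem irr_complete (n : ℕ) (f : CF F) :
    part n f = ∑ χ ∈ irrF F n, ip n f χ • χ := by
  classical
  apply hom_ext (isHom_part n f)
  · apply IsHom.sum
    intro χ hχ
    exact (mem_irrF.1 hχ).1.smul _
  intro g
  rw [part_std]
  have h := irrChar_complete (Γ := G F n) (res n f) (fun x g => conj_inv f n x g)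
  have h1 := congrFun h g
  rw [Finset.sum_apply] at h1
  change f (Fin n → F) g = _ at h1
  rw [h1, CF.sum_apply]
  symm
  apply Finset.sum_bij (fun χ _ => res n χ)
  · intro χ hχ
    rw [Set.Finite.mem_toFinset]
    exact (mem_irrF.1 hχ).2
  · intro χ hχ ψ hψ hh
    exact res_injOn n (mem_irrF.1 hχ) (mem_irrF.1 hψ) hh
  · intro φ hφ
    rw [Set.Finite.mem_toFinset] at hφ
    obtain ⟨χ, hχ, h2⟩ := exists_irr n hφ
    exact ⟨χ, mem_irrF.2 hχ, h2⟩
  · intro χ hχ
    rfl

theorem ip_expand (n : ℕ) (f h : CF F) :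
    ip n f h = ∑ χ ∈ irrF F n, ip n f χ * conj (ip n h χ) := by
  rw [← ip_part_left, irr_complete n f, ip_sum_left]
  apply Finset.sum_congr rfl
  intro χ _
  rw [ip_smul_left, ip_conj]

end Pool.Agent.REll
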