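import Pool.Agent.Lib_helper41.REll_PSH

/-!
# Abstract positive self-adjoint Hopf algebras: the two structure theorems
(proofs by helper41)
-/

open scoped BigOperators

namespace Pool.Agent.REll

universe u v

namespace PSH
variable {I : Type u} {A : Type v} [CommRing A] (P : PSH I A)

/-- the square of a cuspidal -/
theorem sq {r : I} (hr : P.PrimIdx r) :
    ∃ i j, i ≠ j ∧ P.b r * P.b r = P.b i + P.b j := sq_proof hr

/-- the structure theorem for hooks. -/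
theorem hooks {r : I} (hr : P.PrimIdx r) {i₂ : I} (h2 : P.c r r i₂ ≠ 0) :
    ∃ (h e p : ℕ → A) (s : ℕ → ℕ → A),
      h 0 = 1 ∧ e 0 = 1 ∧ h 1 = P.b r ∧ h 2 = P.b i₂
      ∧ (∀ m, ∃ i, h m = P.b i ∧ P.deg i = m * P.deg r)
      ∧ (∀ m, 1 ≤ m → ∑ i ∈ Finset.range (m + 1), (-1) ^ i * e i * h (m - i) = 0)
      ∧ (∀ m : ℕ, 1 ≤ m → (m : A) * h m = ∑ j ∈ Finset.Icc 1 m, p j * h (m - j))
      ∧ (∀ m t, t < m → s m t = ∑ i ∈ Finset.range (t + 1), (-1) ^ i * e (t - i) * h (m - t + i))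
      ∧ (∀ m, 1 ≤ m → p m = ∑ t ∈ Finset.range m, (-1) ^ t * s m t)
      ∧ (∀ m, 1 ≤ m → P.Prim (p m))
      ∧ (∀ m, 1 ≤ m → P.inn (p m) (p m) = m)
      ∧ (∀ m x, 1 ≤ m → P.Prim x → P.inn x (p m) = m * P.inn x (h m))
      ∧ (∀ m t, t < m → ∃ (i : I) (ε : ℤ), (ε = 1 ∨ ε = -1) ∧ s m t = ε • P.b i
          ∧ P.deg i = m * P.deg r ∧ (∃ j, P.c r j i ≠ 0)
          ∧ ∀ r', P.PrimIdx r' → r' ≠ r → ∀ j, P.c r' j i = 0)
      ∧ (∀ m t t', t < m → t' < m → P.inn (s m t) (s m t') = if t = t' then 1 else 0) := hooks_proof hr h2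

end PSH
end Pool.Agent.REll
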