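import Pool.Agent.Lib_helper45.REll.Defs

/-!
# The commutative ring of class functions under the Hall product
-/

open scoped BigOperators ComplexConjugate

namespace Pool.Agent.REll
variable {F : Type} [Field F]

namespace CF

instance : Zero (CF F) := ⟨⟨fun _ _ _ _ _ => 0, by intros; rfl⟩⟩
instance : Add (CF F) := ⟨fun f h => ⟨fun V _ _ _ g => f V g + h V g, by
  intro V V' _ _ _ _ _ _ e g g' he
  simp only [f.inv' V V' e g g' he, h.inv' V V' e g g' he]⟩⟩
instance : Neg (CF F) := ⟨fun f => ⟨fun V _ _ _ g => - f V g, by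
  intro V V' _ _ _ _ _ _ e g g' he
  simp only [f.inv' V V' e g g' he]⟩⟩
instance : Sub (CF F) := ⟨fun f h => ⟨fun V _ _ _ g => f V g - h V g, by
  intro V V' _ _ _ _ _ _ e g g' he
  simp only [f.inv' V V' e g g' he, h.inv' V V' e g g' he]⟩⟩
instance : SMul ℂ (CF F) := ⟨fun c f => ⟨fun V _ _ _ g => c * f V g, by
  intro V V' _ _ _ _ _ _ e g g' he
  simp only [f.inv' V V' e g g' he]⟩⟩
instance : SMul ℕ (CF F) := ⟨fun c f => ⟨fun V _ _ _ g => c • f V g, by
  intro V V' _ _ _ _ _ _ e g g' he
  simp only [f.inv' V V' e g g' he]⟩⟩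
instance : SMul ℤ (CF F) := ⟨fun c f => ⟨fun V _ _ _ g => c • f V g, by
  intro V V' _ _ _ _ _ _ e g g' he
  simp only [f.inv' V V' e g g' he]⟩⟩

@[simp] theorem zero_apply (V : Type) [AddCommGroup V] [Module F V] [Finite V]
    (g : V ≃ₗ[F] V) : (0 : CF F) V g = 0 := rfl
@[simp] theorem add_apply (f h : CF F) (V : Type) [AddCommGroup V] [Module F V] [Finite V]
    (g : V ≃ₗ[F] V) : (f + h) V g = f V g + h V g := rfl
@[simp] theorem neg_apply (f : CF F) (V : Type) [AddCommGroup V] [Module F V] [Finite V]
    (g : V ≃ₗ[F] V) : (-f) V g = - f V g := rfl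
@[simp] theorem sub_apply (f h : CF F) (V : Type) [AddCommGroup V] [Module F V] [Finite V]
    (g : V ≃ₗ[F] V) : (f - h) V g = f V g - h V g := rfl
@[simp] theorem smul_apply (c : ℂ) (f : CF F) (V : Type) [AddCommGroup V] [Module F V] [Finite V]
    (g : V ≃ₗ[F] V) : (c • f) V g = c * f V g := rfl
@[simp] theorem nsmul_apply (c : ℕ) (f : CF F) (V : Type) [AddCommGroup V] [Module F V] [Finite V]
    (g : V ≃ₗ[F] V) : (c • f) V g = c * f V g := nsmul_eq_mul _ _
@[simp] theorem zsmul_apply (c : ℤ) (f : CF F) (V : Type) [AddCommGroup V] [Module F V] [Finite V]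
    (g : V ≃ₗ[F] V) : (c • f) V g = c * f V g := zsmul_eq_mul _ _

noncomputable instance : AddCommGroup (CF F) where
  add_assoc f h k := by ext; exact add_assoc _ _ _
  zero_add f := by ext; exact zero_add _
  add_zero f := by ext; exact add_zero _
  add_comm f h := by ext; exact add_comm _ _
  neg_add_cancel f := by ext; exact neg_add_cancel _
  sub_eq_add_neg f h := by ext; exact sub_eq_add_neg _ _
  nsmul n f := n • f
  nsmul_zero f := by ext; exact zero_nsmul _
  nsmul_succ n f := by ext; exact succ_nsmul _ _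
  zsmul n f := n • f
  zsmul_zero' f := by ext; exact zero_zsmul _
  zsmul_succ' n f := by ext; exact SubNegMonoid.zsmul_succ' _ _
  zsmul_neg' n f := by ext; exact SubNegMonoid.zsmul_neg' _ _

noncomputable instance : Module ℂ (CF F) where
  one_smul f := by ext; exact one_mul _
  mul_smul a b f := by ext; exact mul_assoc _ _ _
  smul_zero a := by ext; exact mul_zero _
  smul_add a f h := by ext; exact mul_add _ _ _
  add_smul a b f := by ext; exact add_mul _ _ _
  zero_smul f := by ext; exact zero_mul _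

/-- evaluation as an additive map -/
noncomputable def evalHom (V : Type) [AddCommGroup V] [Module F V] [Finite V] (g : V ≃ₗ[F] V) :
    CF F →ₗ[ℂ] ℂ where
  toFun f := f V g
  map_add' _ _ := rfl
  map_smul' _ _ := rfl

@[simp] theorem sum_apply {ι : Type*} (s : Finset ι) (f : ι → CF F)
    (V : Type) [AddCommGroup V] [Module F V] [Finite V] (g : V ≃ₗ[F] V) :
    (∑ i ∈ s, f i) V g = ∑ i ∈ s, f i V g := map_sum (evalHom V g) f s

/-- The Hall unit: `1` on the zero space, `0` elsewhere. -/
noncomputable def hone : CF F where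
  toFun V _ _ _ _ := if Module.finrank F V = 0 then 1 else 0
  inv' V V' _ _ _ _ _ _ e _ _ _ := by rw [e.finrank_eq]

noncomputable instance : One (CF F) := ⟨hone⟩
noncomputable instance : Mul (CF F) := ⟨hall⟩

theorem one_apply (V : Type) [AddCommGroup V] [Module F V] [Finite V]
    (g : V ≃ₗ[F] V) : (1 : CF F) V g = if Module.finrank F V = 0 then 1 else 0 := rfl
theorem mul_apply (f h : CF F) (V : Type) [AddCommGroup V] [Module F V] [Finite V]
    (g : V ≃ₗ[F] V) : (f * h) V g = ∑ᶠ W : Stab g, f W.1 (sub g W) * h (V ⧸ W.1) (quo g W) := rfl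

theorem hall_add (f h k : CF F) : f * (h + k) = f * h + f * k := by
  ext V _ _ _ g
  simp only [mul_apply, add_apply, mul_add]
  exact finsum_add_distrib (Set.toFinite _) (Set.toFinite _)

theorem add_hall (f h k : CF F) : (f + h) * k = f * k + h * k := by
  ext V _ _ _ g
  simp only [mul_apply, add_apply, add_mul]
  exact finsum_add_distrib (Set.toFinite _) (Set.toFinite _)

/-- the whole space as a stable subspace -/
def Stab.top {V : Type} [AddCommGroup V] [Module F V] (g : V ≃ₗ[F] V) : Stab g :=
  ⟨⊤, by simp⟩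
/-- the zero space as a stable subspace -/
def Stab.bot {V : Type} [AddCommGroup V] [Module F V] (g : V ≃ₗ[F] V) : Stab g :=
  ⟨⊥, by simp⟩

theorem hall_one (f : CF F) : f * 1 = f := by
  ext V _ _ _ g
  rw [mul_apply, finsum_eq_single _ (Stab.top g)]
  · have h1 : f (Stab.top g).1 (sub g (Stab.top g)) = f V g := by
      apply f.inv' _ _ (Submodule.topEquiv)
      intro v; rfl
    have h2 : Module.finrank F (V ⧸ (Stab.top g).1) = 0 := by
      rw [Module.finrank_eq_zero_iff_of_free]
      exact Submodule.Quotient.subsingleton_iff.2 rfl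
    rw [h1, one_apply, if_pos h2, mul_one]
  · intro W hW
    rw [one_apply, if_neg, mul_zero]
    intro h0
    apply hW
    apply Subtype.ext
    show W.1 = ⊤
    rw [Module.finrank_eq_zero_iff_of_free] at h0
    exact Submodule.Quotient.subsingleton_iff.1 h0

theorem one_hall (f : CF F) : 1 * f = f := by
  ext V _ _ _ g
  rw [mul_apply, finsum_eq_single _ (Stab.bot g)]
  · have h1 : f (V ⧸ (Stab.bot g).1) (quo g (Stab.bot g)) = f V g := by
      apply f.inv' _ _ (Submodule.quotEquivOfEqBot _ rfl)
      intro v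
      obtain ⟨v, rfl⟩ := Submodule.Quotient.mk_surjective _ v
      rfl
    have h2 : Module.finrank F (Stab.bot g).1 = 0 := finrank_bot F V
    rw [h1, one_apply, if_pos h2, one_mul]
  · intro W hW
    rw [one_apply, if_neg, zero_mul]
    intro h0
    apply hW
    apply Subtype.ext
    show W.1 = ⊥
    exact Submodule.finrank_eq_zero.1 h0

end CF
end Pool.Agent.REll
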