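import Pool.Agent.Lib_helper45.REll.Wanted2

/-!
# Identification of the virtual characters `R` of `GL_n(F)`
-/

open scoped BigOperators ComplexConjugate
open Polynomial

namespace Pool.Agent.REll
variable {F : Type} [Field F] [Finite F]

open CF

/-! ### small facts on the abstract inner product -/
namespace PSH
universe u v
variable {I : Type u} {A : Type v} [CommRing A] (P : PSH I A)

section HK
variable {P}
variable {r i₂ : I} (H : P.HK r i₂)

theorem HK.hom_s (m t : ℕ) (ht : t < m) : P.Hom (m * P.deg r) (H.s m t) := by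
  intro i hi
  obtain ⟨j, ε, -, h, hd, -⟩ := H.sb m t ht
  rw [h, inn_zsmul_left, inn_b_b, if_neg (by rintro rfl; exact hi hd), mul_zero]

theorem HK.hom_p (m : ℕ) (hm : 1 ≤ m) : P.Hom (m * P.deg r) (H.p m) := by
  intro i hi
  rw [H.ps m hm, inn_sum_left]
  apply Finset.sum_eq_zero
  intro t ht
  have h1 : (-1 : A) ^ t * H.s m t = ((-1 : ℤ) ^ t) • H.s m t := by
    rw [zsmul_eq_mul]; push_cast; rfl
  rw [h1, inn_zsmul_left, H.hom_s m t (Finset.mem_range.1 ht) i hi, mul_zero]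

theorem neg_one_pow_mul (t : ℕ) (x : A) : (-1 : A) ^ t * x = ((-1 : ℤ) ^ t) • x := by
  rw [zsmul_eq_mul]; push_cast; rfl

/-- hooks over different cuspidals are different -/
theorem HK.inn_s_s {r' i₂' : I} (H' : P.HK r' i₂') (hr : P.PrimIdx r) (hr' : P.PrimIdx r')
    (hne : r ≠ r') (m t m' t' : ℕ) (ht : t < m) (ht' : t' < m') :
    P.inn (H.s m t) (H'.s m' t') = 0 := by
  obtain ⟨i, ε, -, h, -, ⟨j, hj⟩, h3⟩ := H.sb m t ht
  obtain ⟨i', ε', -, h', -, ⟨j', hj'⟩, h3'⟩ := H'.sb m' t' ht'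
  rw [h, h', inn_zsmul_left, inn_zsmul_right, inn_b_b, if_neg, mul_zero, mul_zero]
  rintro rfl
  exact hj (h3' r hr hne j)

theorem HK.inn_p_p {r' i₂' : I} (H' : P.HK r' i₂') (hr : P.PrimIdx r) (hr' : P.PrimIdx r')
    (hne : r ≠ r') (m m' : ℕ) (hm : 1 ≤ m) (hm' : 1 ≤ m') :
    P.inn (H.p m) (H'.p m') = 0 := by
  rw [H.ps m hm, H'.ps m' hm', inn_sum_left]
  apply Finset.sum_eq_zero
  intro t ht
  rw [neg_one_pow_mul, inn_zsmul_left, inn_sum_right, Finset.sum_eq_zero, mul_zero]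
  intro t' ht'
  rw [neg_one_pow_mul, inn_zsmul_right, H.inn_s_s H' hr hr' hne m t m' t'
    (Finset.mem_range.1 ht) (Finset.mem_range.1 ht'), mul_zero]

end HK

/-- `ident` for families of hooks -/
theorem ident' (q m : ℕ) (hq : 2 ≤ q) (hm : 1 ≤ m) (R : ℕ → ℕ → A)
    (hRp : ∀ s a, 1 ≤ s → s ≤ m → P.Prim (R s a))
    (hRh : ∀ s a, 1 ≤ s → s ≤ m → P.Hom s (R s a))
    (hRR : ∀ s a b, 1 ≤ s → s ≤ m → P.inn (R s a) (R s b) = (orb q s a b : ℤ))
    (hpars : ∀ x, P.Prim x → P.Hom m x → (m : ℤ) * P.inn x x =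
      ∑ a ∈ Finset.range (q ^ m - 1), P.inn x (R m a) ^ 2)
    (H : ∀ r, P.PrimIdx r → Σ i₂ : I, P.HK r i₂) :
    (∀ a < q ^ m - 1, ∃ r, ∃ hr : P.PrimIdx r, P.deg r = sa q m a ∧
      (R m a = (H r hr).2.p (m / P.deg r) ∨ R m a = - (H r hr).2.p (m / P.deg r))) ∧
    (∀ r, ∀ hr : P.PrimIdx r, P.deg r ∣ m →
      Nat.card {a : ℕ // a < q ^ m - 1 ∧ (R m a = (H r hr).2.p (m / P.deg r) ∨
        R m a = - (H r hr).2.p (m / P.deg r))} = P.deg r) := by
  classical
  have key := P.ident q m hq hm R hRp hRh hRR hpars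
    (fun r => if hr : P.PrimIdx r then (H r hr).2.p (m / P.deg r) else 0)
    (fun r => if hr : P.PrimIdx r then (H r hr).2.h (m / P.deg r) else 0)
    ?_ ?_ ?_ ?_
  · refine ⟨?_, ?_⟩
    · intro a ha
      obtain ⟨r, hr, h1, h2⟩ := key.1 a ha
      refine ⟨r, hr, h1, ?_⟩
      simpa only [dif_pos hr] using h2
    · intro r hr hd
      have := key.2 r hr hd
      simpa only [dif_pos hr] using this
  · intro r hr hd
    simp only [dif_pos hr]
    have hpos : 1 ≤ m / P.deg r := Nat.div_pos (Nat.le_of_dvd hm hd) hr.1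
    refine ⟨(H r hr).2.pprim _ hpos, ?_⟩
    have := (H r hr).2.hom_p (m / P.deg r) hpos
    rwa [Nat.div_mul_cancel hd] at this
  · intro r hr hd
    simp only [dif_pos hr]
    have hpos : 1 ≤ m / P.deg r := Nat.div_pos (Nat.le_of_dvd hm hd) hr.1
    exact (H r hr).2.pp _ hpos
  · intro r r' hr hr' hd hd' hne
    simp only [dif_pos hr, dif_pos hr']
    exact (H r hr).2.inn_p_p (H r' hr').2 hr hr' hne _ _
      (Nat.div_pos (Nat.le_of_dvd hm hd) hr.1) (Nat.div_pos (Nat.le_of_dvd hm hd') hr'.1)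
  · intro r hr hd x hx
    simp only [dif_pos hr]
    exact (H r hr).2.ph _ x (Nat.div_pos (Nat.le_of_dvd hm hd) hr.1) hx

end PSH
end Pool.Agent.REll
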