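import Pool.Agent.Lib_helper45.REll.Str

/-!
# Identification of the virtual characters `R` of `GL_n(F)`, part 2
-/

open scoped BigOperators ComplexConjugate
open Polynomial

namespace Pool.Agent.REll
variable {F : Type} [Field F] [Finite F]

open CF

theorem two_le_card : 2 ≤ Nat.card F := by
  have : Nontrivial F := inferInstance
  exact Finite.one_lt_card

omit [Finite F] in
theorem Big.mono {K : Type} [Field K] [Algebra F K] {n m : ℕ} (hK : Big F n K) (h : m ≤ n) :
    Big F m K := fun j h1 h2 => hK j h1 (h2.trans h)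

section fam
variable {K : Type} [Field K] [Finite K] [Algebra F K] (ι : MulChar K ℂ) (hι : IsGen ι)
  (N : ℕ) (hK : Big F N K) (R : ℕ → CF F) (hR : ∀ a, R a * allOne = Bf K (ι ^ a))

open Classical in
/-- `R_a` in degree `m` as a virtual character -/
noncomputable def RA (R : ℕ → CF F) (m a : ℕ) : AA F :=
  if h : part m (R a) ∈ AA F then ⟨part m (R a), h⟩ else 0

include hK hR in
theorem RA_coe (m a : ℕ) (hm : m ≤ N) : ((RA R m a : AA F) : CF F) = part m (R a) := by
  have h : part m (R a) ∈ AA F := part_R_mem (ι ^ a) (R a) (hR a) m (hK.mono hm)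
  unfold RA
  rw [dif_pos h]

include hK hR in
theorem RA_prim (m a : ℕ) (hm : m ≤ N) : (PG F).Prim (RA R m a) := by
  rw [prim_iff, RA_coe ι N hK R hR m a hm]
  exact isPrim_part m _ (isPrim_R _ _ (hR a))

include hK hR in
theorem RA_isHom (m a : ℕ) (hm : m ≤ N) : ((RA R m a : AA F) : CF F).IsHom m := by
  rw [RA_coe ι N hK R hR m a hm]
  exact isHom_part _ _

theorem hom_of_isHom {m : ℕ} {x : AA F} (hx : (x : CF F).IsHom m) : (PG F).Hom m x := by
  intro i hi
  have h := inn_eq_ip m x ((PG F).b i) hx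
  have h2 : ip m (x : CF F) (((PG F).b i : AA F) : CF F) = 0 := by
    rw [← ip_conj]
    have hb : (((PG F).b i : AA F) : CF F) = ch i := bas_coe i
    rw [hb, ip_eq_zero_of_hom hi (ch_hom i), map_zero]
  rw [h2] at h
  exact_mod_cast h

theorem isHom_of_hom {m : ℕ} {x : AA F} (hx : (PG F).Hom m x) : (x : CF F).IsHom m := by
  classical
  have h1 : x = ∑ i ∈ ((PG F).b.repr x).support, (PG F).b.repr x i • (PG F).b i := by
    conv_lhs => rw [← (PG F).b.linearCombination_repr x]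
    rfl
  rw [h1]
  push_cast
  apply IsHom.sum
  intro i hi
  have hd : (PG F).deg i = m := by
    by_contra hne
    have := hx i hne
    rw [PSH.inn_b_right] at this
    exact (Finsupp.mem_support_iff.1 hi) this
  have hb : (((PG F).b i : AA F) : CF F) = ch i := bas_coe i
  rw [hb, ← int_cast_smul]
  exact (IsHom.smul (hd ▸ ch_hom i) _)

include hι hK hR in
theorem RA_inn (m a b : ℕ) (hm1 : 1 ≤ m) (hm : m ≤ N) :
    (PG F).inn (RA R m a) (RA R m b) = (orb (Nat.card F) m a b : ℤ) := by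
  have h := inn_eq_ip m (RA R m a) (RA R m b) (RA_isHom ι N hK R hR m a hm)
  rw [RA_coe ι N hK R hR m a hm, RA_coe ι N hK R hR m b hm, ip_part_left, ip_part_right,
    ip_R_R_orb ι hι m hm1 (hK.mono hm) a b _ _ (hR a) (hR b)] at h
  exact_mod_cast h

include hK hR in
theorem inn_RA (m a : ℕ) (hm : m ≤ N) (x : AA F) (hx : (x : CF F).IsHom m) :
    (((PG F).inn x (RA R m a) : ℤ) : ℂ) = ip m (x : CF F) (R a) := by
  rw [inn_eq_ip m x _ hx, RA_coe ι N hK R hR m a hm, ip_part_right]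

include hι hK hR in
theorem RA_pars (m : ℕ) (hm1 : 1 ≤ m) (hm : m ≤ N) (x : AA F) (hp : (PG F).Prim x)
    (hx : (PG F).Hom m x) : (m : ℤ) * (PG F).inn x x =
      ∑ a ∈ Finset.range (Nat.card F ^ m - 1), (PG F).inn x (RA R m a) ^ 2 := by
  have hx' := isHom_of_hom hx
  have h := parseval ι hι m hm1 (hK.mono hm) R hR (x : CF F) ((prim_iff x).1 hp)
  rw [← inn_eq_ip m x x hx'] at h
  have h2 : ∀ a, ip m (x : CF F) (R a) * conj (ip m (x : CF F) (R a)) =
      (((PG F).inn x (RA R m a) ^ 2 : ℤ) : ℂ) := by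
    intro a
    rw [← inn_RA ι N hK R hR m a hm x hx']
    simp [sq]
  simp only [h2] at h
  exact_mod_cast h

include hι hK hR in
/-- identification at level `m ≤ N` -/
theorem ident_RA (m : ℕ) (hm1 : 1 ≤ m) (hm : m ≤ N)
    (H : ∀ r, (PG F).PrimIdx r → Σ i₂ : Idx F, (PG F).HK r i₂) :
    (∀ a < Nat.card F ^ m - 1, ∃ r, ∃ hr : (PG F).PrimIdx r, r.d = sa (Nat.card F) m a ∧
      (RA R m a = (H r hr).2.p (m / r.d) ∨ RA R m a = - (H r hr).2.p (m / r.d))) ∧
    (∀ r, ∀ hr : (PG F).PrimIdx r, r.d ∣ m →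
      Nat.card {a : ℕ // a < Nat.card F ^ m - 1 ∧ (RA R m a = (H r hr).2.p (m / r.d) ∨
        RA R m a = - (H r hr).2.p (m / r.d))} = r.d) :=
  (PG F).ident' (Nat.card F) m two_le_card hm1 (RA R)
    (fun s a _ h => RA_prim ι N hK R hR s a (h.trans hm))
    (fun s a _ h => hom_of_isHom (RA_isHom ι N hK R hR s a (h.trans hm)))
    (fun s a b h1 h => RA_inn ι hι N hK R hR s a b h1 (h.trans hm))
    (fun x hp hx => RA_pars ι hι N hK R hR m hm1 hm x hp hx) H

/-- every primitive index has a hook family -/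
theorem exists_HK {r : Idx F} (hr : (PG F).PrimIdx r) : Nonempty (Σ i₂, (PG F).HK r i₂) := by
  classical
  obtain ⟨i, j, hij, h⟩ := (PG F).sq hr
  have hc0 : (PG F).c r r i ≠ 0 := ?_
  · obtain ⟨H⟩ := (PG F).nonempty_HK hr hc0
    exact ⟨⟨i, H⟩⟩
  intro hc
  have h1 := (PG F).mul r r
  have h2 : (PG F).inn ((PG F).b r * (PG F).b r) ((PG F).b i) = 1 := by
    classical
    rw [h, PSH.inn_add_left, PSH.inn_b_b, PSH.inn_b_b, if_pos rfl, if_neg (Ne.symm hij)]
    rfl
  rw [PSH.inn_b_right, h1] at h2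
  have h3 : (PG F).b.repr (∑ᶠ k, ((PG F).c r r k : ℤ) • (PG F).b k) i = (PG F).c r r i := by
    have hfin : (Function.support fun k => ((PG F).c r r k : ℤ) • (PG F).b k).Finite := by
      apply ((PG F).fin ((PG F).deg r + (PG F).deg r)).subset
      intro k hk
      apply (PG F).c_deg
      intro h0
      apply hk
      simp [h0]
    rw [finsum_eq_sum_of_support_toFinset_subset _ hfin (s := insert i hfin.toFinset)
      (by intro k hk; exact Finset.mem_insert_of_mem hk)]
    rw [map_sum, Finset.sum_apply', Finset.sum_eq_single_of_mem i (Finset.mem_insert_self _ _)]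
    · rw [map_zsmul, Finsupp.smul_apply, (PG F).b.repr_self, Finsupp.single_eq_same,
        smul_eq_mul, mul_one]
    · intro k _ hk
      rw [map_zsmul, Finsupp.smul_apply, (PG F).b.repr_self,
        Finsupp.single_eq_of_ne (Ne.symm hk), smul_zero]
  rw [h3, hc] at h2
  exact absurd h2 (by norm_num)

include hι hK hR in
/-- the primitive elements `p m` of a hook family are, up to sign, among the `R` -/
theorem exists_RA (r : Idx F) (hr : (PG F).PrimIdx r) {i₂ : Idx F} (H : (PG F).HK r i₂)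
    (m : ℕ) (h1 : 1 ≤ m) (hm : m * r.d ≤ N) :
    ∃ a, RA R (m * r.d) a = H.p m ∨ RA R (m * r.d) a = - H.p m := by
  classical
  have hr0 : 1 ≤ r.d := hr.1
  have hm0 : 1 ≤ m * r.d := Nat.mul_pos h1 hr0
  let HH : ∀ r', (PG F).PrimIdx r' → Σ i₂ : Idx F, (PG F).HK r' i₂ := fun r' hr' =>
    if h : r = r' then ⟨i₂, h ▸ H⟩ else (exists_HK hr').some
  have hHH : HH r hr = ⟨i₂, H⟩ := by simp [HH]
  have h3 := (ident_RA ι hι N hK R hR (m * r.d) hm0 hm HH).2 r hr (Dvd.intro_left m rfl)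
  rw [Nat.mul_div_cancel _ hr0, hHH] at h3
  have h5 : 0 < Nat.card {a : ℕ // a < Nat.card F ^ (m * r.d) - 1 ∧
    (RA R (m * r.d) a = H.p m ∨ RA R (m * r.d) a = - H.p m)} := by
    rw [h3]; exact hr0
  obtain ⟨⟨a, -, ha⟩⟩ := (Nat.card_pos_iff.1 h5).1
  exact ⟨a, ha⟩

include hι hK hR in
/-- signs are fixed -/
theorem sign_RA (r : Idx F) (hr : (PG F).PrimIdx r) (h2 : 2 * r.d ≤ N) :
    ∃ (i₂ : Idx F) (H : (PG F).HK r i₂) (u : ℤ), (u = 1 ∨ u = -1) ∧ ∀ m a, 1 ≤ m →
      m * r.d ≤ N → (RA R (m * r.d) a = H.p m ∨ RA R (m * r.d) a = - H.p m) →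
      H.p m = u ^ m • RA R (m * r.d) a := by
  obtain ⟨U, hU1, hU2⟩ := exists_ups F
  refine (PG F).sign hr N h2 U hU2 (RA R) ?_ ?_
  · intro m a h1 hm
    rw [hU1 m _ (RA_isHom ι N hK R hR m a hm), RA_coe ι N hK R hR m a hm]
    exact val_R_unip (ι ^ a) (R a) (hR a) m h1 (hK.mono hm)
  · intro i₂ H m h1 hm
    exact exists_RA ι hι N hK R hR r hr H m h1 hm

end fam
end Pool.Agent.REll
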