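import Pool.Agent.Lib_helper45.REll.Str2

/-!
# Degrees and multiplicities of the hooks
-/

open scoped BigOperators ComplexConjugate
open Polynomial

namespace Pool.Agent.REll
variable {F : Type} [Field F] [Finite F]

open CF

/-- inner product with `oneT` as an additive functional -/
noncomputable def LT (n : ℕ) : AA F →+ ℂ where
  toFun x := ip n (x : CF F) oneT
  map_zero' := ip_zero_left n _
  map_add' _ _ := ip_add_left n _ _ _

theorem LT_prod (n : ℕ) (i j : Idx F) (hi : i ≠ oneI F) (hj : j ≠ oneI F) :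
    LT n ((PG F).b i * (PG F).b j) = 0 := by
  have hi0 : i.d ≠ 0 := fun h => hi (eq_oneI i h)
  have hj0 : j.d ≠ 0 := fun h => hj (eq_oneI j h)
  show ip n (((PG F).b i * (PG F).b j : AA F) : CF F) oneT = 0
  have hb : ∀ i : Idx F, (((PG F).b i : AA F) : CF F) = ch i := bas_coe
  push_cast
  rw [hb, hb]
  apply ip_mul_prim n _ _ _ isPrim_oneT
  · intro g
    exact ch_hom i _ g (by simpa using hi0.symm)
  · intro g
    exact ch_hom j _ g (by simpa using hj0.symm)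

theorem prod_ne_zero (n : ℕ) : (∏ i ∈ Finset.Icc 1 n, ((Nat.card F : ℂ) ^ i - 1)) ≠ 0 := by
  rw [Finset.prod_ne_zero_iff]
  intro i hi
  rw [Finset.mem_Icc] at hi
  have h2 : 2 ≤ Nat.card F := two_le_card
  have h1 : (1 : ℕ) < Nat.card F ^ i := Nat.one_lt_pow (by omega) (by omega)
  intro h
  have h3 : ((Nat.card F ^ i : ℕ) : ℂ) = ((1 : ℕ) : ℂ) := by
    push_cast
    exact sub_eq_zero.1 h
  have h4 := Nat.cast_injective h3
  omega

theorem dl_part (n : ℕ) (f : CF F) : dl n (part n f) = dl n f := by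
  unfold dl
  rw [part_std]

section fam
variable {K : Type} [Field K] [Finite K] [Algebra F K] (ι : MulChar K ℂ) (hι : IsGen ι)
  (N : ℕ) (hK : Big F N K) (R : ℕ → CF F) (hR : ∀ a, R a * allOne = Bf K (ι ^ a))

include hι hK hR in
theorem one_r (n : ℕ) (hn : 1 ≤ n) (hnN : n ≤ N) (r : Idx F) (hr : (PG F).PrimIdx r)
    (hd : r.d ∣ n) {i₂ : Idx F} (H : (PG F).HK r i₂) (u : ℤ) (hu : u = 1 ∨ u = -1)
    (hsg : ∀ m a, 1 ≤ m → m * r.d ≤ N →
      (RA R (m * r.d) a = H.p m ∨ RA R (m * r.d) a = - H.p m) →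
      H.p m = u ^ m • RA R (m * r.d) a) :
    ∃ (χ : ℕ → Idx F) (ε : ℕ → ℤ) (η : ℕ → ℂ), ∀ t < n / r.d,
      (ε t = 1 ∨ ε t = -1) ∧ (η t = 1 ∨ η t = -1) ∧
      (χ t).d = n ∧ H.s (n / r.d) t = ε t • (PG F).b (χ t) ∧
      ch (χ t) (Fin n → F) (LinearEquiv.refl F _) = η t * ((Dg (Nat.card F) n r.d t : ℚ) : ℂ) ∧
      ∀ a, (RA R n a = H.p (n / r.d) ∨ RA R n a = - H.p (n / r.d)) →
        ip n oneT (ch (χ t)) =
          η t * (((-1) ^ t * r.d * tau (Nat.card F) n a / n : ℚ) : ℂ) := by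
  classical
  have hr0 : 1 ≤ r.d := hr.1
  set m := n / r.d with hmdef
  have hmn : m * r.d = n := Nat.div_mul_cancel hd
  have hm : 1 ≤ m := Nat.div_pos (Nat.le_of_dvd hn hd) hr0
  have hsb : ∀ t, ∃ (i : Idx F) (ε : ℤ), t < m → (ε = 1 ∨ ε = -1) ∧ H.s m t = ε • (PG F).b i
      ∧ (PG F).deg i = m * (PG F).deg r := by
    intro t
    by_cases ht : t < m
    · obtain ⟨i, ε, h1, h2, h3, -⟩ := H.sb m t ht
      exact ⟨i, ε, fun _ => ⟨h1, h2, h3⟩⟩
    · exact ⟨r, 1, fun h => (ht h).elim⟩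
  choose χ ε hχ using hsb
  have hb : ∀ i : Idx F, (((PG F).b i : AA F) : CF F) = ch i := bas_coe
  have hq2 : 2 ≤ Nat.card F := two_le_card
  obtain ⟨D, hD⟩ := exists_dl F
  set d : ℕ → ℚ := fun j => (-1) ^ (r.d * j - 1) / ((Nat.card F : ℚ) ^ (r.d * j) - 1) with hddef
  have hDp : ∀ j, 1 ≤ j → j ≤ m → D (H.p j) = (u : ℂ) ^ j * (d j : ℂ) := by
    intro j hj hjm
    have hjN : j * r.d ≤ N := by
      calc j * r.d ≤ m * r.d := Nat.mul_le_mul_right _ hjm
        _ = n := hmn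
        _ ≤ N := hnN
    obtain ⟨a, ha⟩ := exists_RA ι hι N hK R hR r hr H j hj hjN
    rw [hsg j a hj hjN ha, map_zsmul, hD (j * r.d) _ (RA_isHom ι N hK R hR _ a hjN),
      RA_coe ι N hK R hR _ a hjN, dl_part,
      dl_R (ι ^ a) (R a) (hR a) (j * r.d) (Nat.mul_pos hj hr0), zsmul_eq_mul]
    simp only [hddef, mul_comm r.d j]
    push_cast
    rfl
  refine ⟨χ, ε, fun t => (ε t : ℂ) * (u : ℂ) ^ m, ?_⟩
  intro t ht
  obtain ⟨hε, hs, hdeg⟩ := hχ t ht
  have hdeg' : (χ t).d = n := hdeg.trans hmn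
  have hε2 : (ε t : ℂ) * ε t = 1 := by
    rcases hε with h | h <;> rw [h] <;> norm_num
  have hu2 : (u : ℂ) ^ m = 1 ∨ (u : ℂ) ^ m = -1 := by
    rcases hu with h | h
    · left; rw [h]; simp
    · rw [h]; push_cast; exact neg_one_pow_eq_or ℂ m
  refine ⟨hε, ?_, hdeg', hs, ?_, ?_⟩
  · rcases hε with h | h <;> rcases hu2 with h' | h' <;> simp [h, h']
  · -- degree
    have h1 := (PG F).hook_eval H D u d m hDp t ht
    rw [hs, map_zsmul, zsmul_eq_mul, hD n _ (by rw [hb]; exact hdeg' ▸ ch_hom (χ t)), hb] at h1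
    have h2 : dl n (ch (χ t)) = (ε t : ℂ) * (u : ℂ) ^ m * (nS d m t : ℂ) := by
      calc dl n (ch (χ t)) = (ε t : ℂ) * ε t * dl n (ch (χ t)) := by rw [hε2, one_mul]
        _ = _ := by rw [mul_assoc, h1, mul_assoc]
    unfold dl at h2
    rw [div_eq_iff (prod_ne_zero n)] at h2
    rw [h2]
    unfold Dg
    push_cast
    ring
  · intro a ha
    have h1 := (PG F).hook_lin hr H (LT n) (fun i j hi hj => LT_prod n i j hi hj) m t ht
    have h2 : H.p m = u ^ m • RA R n a := by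
      have := hsg m a hm (hmn.le.trans hnN)
      rw [hmn] at this
      exact this ha
    rw [hs, h2, map_zsmul, map_zsmul] at h1
    have h3 : LT n (RA R n a) = ((tau (Nat.card F) n a : ℚ) : ℂ) := by
      show ip n ((RA R n a : AA F) : CF F) oneT = _
      rw [RA_coe ι N hK R hR n a hnN, ip_part_left, ← ip_conj,
        ip_oneT_R ι hι n hn (hK.mono hnN) a (R a) (hR a)]
      exact map_ratCast (starRingEnd ℂ) _
    have h4 : LT n ((PG F).b (χ t)) = ip n (ch (χ t)) oneT := by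
      show ip n (((PG F).b (χ t) : AA F) : CF F) oneT = _
      rw [hb]
    rw [h3, h4, zsmul_eq_mul, zsmul_eq_mul] at h1
    have hm0 : (m : ℂ) ≠ 0 := Nat.cast_ne_zero.2 (by omega)
    have h5 : ip n (ch (χ t)) oneT =
        (ε t : ℂ) * (u : ℂ) ^ m * (((-1) ^ t * r.d * tau (Nat.card F) n a / n : ℚ) : ℂ) := by
      have hn' : (n : ℂ) = m * r.d := by rw [← hmn]; push_cast; rfl
      have hrd : (r.d : ℂ) ≠ 0 := Nat.cast_ne_zero.2 (by omega)
      have h6 : ip n (ch (χ t)) oneT = (ε t : ℂ) * (((ε t : ℂ) * ip n (ch (χ t)) oneT)) := by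
        rw [← mul_assoc, hε2, one_mul]
      rw [h6]
      have h7 : (ε t : ℂ) * ip n (ch (χ t)) oneT =
          (-1) ^ t * ((u : ℂ) ^ m * ((tau (Nat.card F) n a : ℚ) : ℂ)) / m := by
        rw [eq_div_iff hm0, mul_comm, h1]
        push_cast
        ring
      rw [h7]
      push_cast
      rw [hn']
      field_simp
    rw [← ip_conj, h5]
    rw [map_mul, map_mul, map_pow, map_ratCast, map_intCast, map_intCast]

end fam
end Pool.Agent.REll
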