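import Pool.Agent.Lib_helper45.REll.Str3

/-!
# The structure theorem used in the count, and the count
-/

open scoped BigOperators ComplexConjugate
open Polynomial

namespace Pool.Agent.REll

open CF

theorem str (F : Type) [Field F] [Finite F] (n : ℕ) (hn : 1 ≤ n) :
    ∃ (C : Finset (Idx F)) (χ : Idx F → ℕ → Idx F) (η : Idx F → ℕ → ℂ) (ρ : ℕ → Idx F),
      (∀ r ∈ C, 1 ≤ r.d ∧ r.d ∣ n) ∧
      (∀ r ∈ C, ∀ t < n / r.d, (η r t = 1 ∨ η r t = -1) ∧ (χ r t).d = n ∧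
        ch (χ r t) (Fin n → F) (LinearEquiv.refl F _) =
          η r t * ((Dg (Nat.card F) n r.d t : ℚ) : ℂ) ∧
        ∀ a < Nat.card F ^ n - 1, ρ a = r → ip n oneT (ch (χ r t)) =
          η r t * (((-1) ^ t * r.d * tau (Nat.card F) n a / n : ℚ) : ℂ)) ∧
      (∀ r ∈ C, ∀ r' ∈ C, ∀ t < n / r.d, ∀ t' < n / r'.d, χ r t = χ r' t' → r = r' ∧ t = t') ∧
      (∀ i : Idx F, i.d = n → ip n oneT (ch i) ≠ 0 → ∃ r ∈ C, ∃ t < n / r.d, χ r t = i) ∧
      (∀ a < Nat.card F ^ n - 1, ρ a ∈ C ∧ (ρ a).d = sa (Nat.card F) n a) ∧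
      (∀ r ∈ C, Nat.card {a : ℕ // a < Nat.card F ^ n - 1 ∧ ρ a = r} = r.d) := by
  classical
  obtain ⟨K, _, _, _, hK⟩ := exists_big F (2 * n)
  obtain ⟨ι, hι1, hι2⟩ := exists_gen K
  have hι : IsGen ι := ⟨hι1, hι2⟩
  obtain ⟨μ, hμ⟩ := exists_inv_allOne (F := F)
  set R : ℕ → CF F := fun a => Bf K (ι ^ a) * μ with hRdef
  have hR : ∀ a, R a * allOne = Bf K (ι ^ a) := by
    intro a
    rw [hRdef]
    show Bf K (ι ^ a) * μ * allOne = _
    rw [mul_assoc, mul_comm μ, hμ, mul_one]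
  have hsign := fun (r : Idx F) (hr : (PG F).PrimIdx r) (h : r.d ≤ n) =>
    sign_RA ι hι (2 * n) hK R hR r hr (by omega)
  choose i₂ H u hu hsg using hsign
  let HH : ∀ r, (PG F).PrimIdx r → Σ i₂ : Idx F, (PG F).HK r i₂ := fun r hr =>
    if h : r.d ≤ n then ⟨i₂ r hr h, H r hr h⟩ else (exists_HK hr).some
  have hHH : ∀ r hr (h : r.d ≤ n), HH r hr = ⟨i₂ r hr h, H r hr h⟩ := by
    intro r hr h
    simp only [HH, dif_pos h]
  obtain ⟨id1, id2⟩ := ident_RA ι hι (2 * n) hK R hR n hn (by omega) HH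
  have hle : ∀ {r : Idx F}, r.d ∣ n → r.d ≤ n := fun h => Nat.le_of_dvd hn h
  -- the hooks
  have hone : ∀ r : Idx F, ∃ (χ : ℕ → Idx F) (ε : ℕ → ℤ) (η : ℕ → ℂ),
      ∀ (hr : (PG F).PrimIdx r) (hd : r.d ∣ n), ∀ t < n / r.d,
      (ε t = 1 ∨ ε t = -1) ∧ (η t = 1 ∨ η t = -1) ∧
      (χ t).d = n ∧ (HH r hr).2.s (n / r.d) t = ε t • (PG F).b (χ t) ∧
      ch (χ t) (Fin n → F) (LinearEquiv.refl F _) = η t * ((Dg (Nat.card F) n r.d t : ℚ) : ℂ) ∧
      ∀ a, (RA R n a = (HH r hr).2.p (n / r.d) ∨ RA R n a = - (HH r hr).2.p (n / r.d)) →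
        ip n oneT (ch (χ t)) =
          η t * (((-1) ^ t * r.d * tau (Nat.card F) n a / n : ℚ) : ℂ) := by
    intro r
    by_cases hr : (PG F).PrimIdx r ∧ r.d ∣ n
    · obtain ⟨χ, ε, η, h⟩ := one_r ι hι (2 * n) hK R hR n hn (by omega) r hr.1 hr.2
        (H r hr.1 (hle hr.2)) (u r hr.1 (hle hr.2)) (hu r hr.1 (hle hr.2))
        (hsg r hr.1 (hle hr.2))
      refine ⟨χ, ε, η, ?_⟩
      intro hr' hd'
      rw [hHH r hr' (hle hd')]
      exact h
    · exact ⟨fun _ => r, fun _ => 1, fun _ => 1, fun h1 h2 => (hr ⟨h1, h2⟩).elim⟩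
  choose χ ε η hχ using hone
  -- the map a ↦ r(a)
  have hrho : ∀ a, ∃ r : Idx F, a < Nat.card F ^ n - 1 → ∃ hr : (PG F).PrimIdx r,
      r.d = sa (Nat.card F) n a ∧
      (RA R n a = (HH r hr).2.p (n / r.d) ∨ RA R n a = - (HH r hr).2.p (n / r.d)) := by
    intro a
    by_cases ha : a < Nat.card F ^ n - 1
    · obtain ⟨r, hr, h⟩ := id1 a ha
      exact ⟨r, fun _ => ⟨hr, h⟩⟩
    · exact ⟨oneI F, fun h => (ha h).elim⟩
  choose ρ hρ using hrho
  have hsa : ∀ a, sa (Nat.card F) n a ∣ n := fun a => (sa_pos _ n two_le_card hn a).2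
  -- uniqueness
  have huniq : ∀ a r r' (hr : (PG F).PrimIdx r) (hr' : (PG F).PrimIdx r'), r.d ∣ n → r'.d ∣ n →
      (RA R n a = (HH r hr).2.p (n / r.d) ∨ RA R n a = - (HH r hr).2.p (n / r.d)) →
      (RA R n a = (HH r' hr').2.p (n / r'.d) ∨ RA R n a = - (HH r' hr').2.p (n / r'.d)) →
      r = r' := by
    intro a r r' hr hr' hd hd' h h'
    by_contra hne
    have hm : 1 ≤ n / r.d := Nat.div_pos (hle hd) hr.1
    have hm' : 1 ≤ n / r'.d := Nat.div_pos (hle hd') hr'.1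
    have h0 := PSH.HK.inn_p_p (HH r hr).2 (HH r' hr').2 hr hr' hne _ _ hm hm'
    have h1 := (HH r hr).2.pp _ hm
    have h2 : (PG F).inn ((HH r hr).2.p (n / r.d)) ((HH r hr).2.p (n / r.d)) = 0 := by
      have e : (HH r hr).2.p (n / r.d) = (HH r' hr').2.p (n / r'.d) ∨
          (HH r hr).2.p (n / r.d) = - (HH r' hr').2.p (n / r'.d) := by
        rcases h with h | h <;> rcases h' with h' | h'
        · left; rw [← h, ← h']
        · right; rw [← h, ← h']
        · right; rw [← h', h, neg_neg]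
        · left
          have := h.symm.trans h'
          exact neg_injective this
      rcases e with e | e
      · calc (PG F).inn ((HH r hr).2.p (n / r.d)) ((HH r hr).2.p (n / r.d))
            = (PG F).inn ((HH r hr).2.p (n / r.d)) ((HH r' hr').2.p (n / r'.d)) := by rw [← e]
          _ = 0 := h0
      · have e' : (HH r hr).2.p (n / r.d) = (-1 : ℤ) • (HH r' hr').2.p (n / r'.d) := by
          rw [e, neg_one_zsmul]
        calc (PG F).inn ((HH r hr).2.p (n / r.d)) ((HH r hr).2.p (n / r.d))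
            = (PG F).inn ((HH r hr).2.p (n / r.d)) ((-1 : ℤ) • (HH r' hr').2.p (n / r'.d)) := by
              rw [← e']
          _ = 0 := by rw [PSH.inn_zsmul_right, h0, mul_zero]
    rw [h2] at h1
    have : (n / r.d : ℕ) = 0 := by exact_mod_cast h1.symm
    omega
  refine ⟨(idxLE n).filter (fun r => (PG F).PrimIdx r ∧ r.d ∣ n), χ, η, ρ, ?_, ?_, ?_, ?_, ?_, ?_⟩
  · intro r hr
    rw [Finset.mem_filter] at hr
    exact ⟨hr.2.1.1, hr.2.2⟩
  · intro r hr t ht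
    rw [Finset.mem_filter] at hr
    obtain ⟨h1, h2, h3, h4, h5, h6⟩ := hχ r hr.2.1 hr.2.2 t ht
    refine ⟨h2, h3, h5, ?_⟩
    intro a ha har
    apply h6 a
    obtain ⟨hr', h7, h8⟩ := hρ a ha
    subst har
    exact h8
  · intro r hr r' hr' t ht t' ht' hh
    rw [Finset.mem_filter] at hr hr'
    obtain ⟨h1, h2, h3, h4, h5, h6⟩ := hχ r hr.2.1 hr.2.2 t ht
    obtain ⟨h1', h2', h3', h4', h5', h6'⟩ := hχ r' hr'.2.1 hr'.2.2 t' ht'
    have hinn : (PG F).inn ((HH r hr.2.1).2.s (n / r.d) t)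
        ((HH r' hr'.2.1).2.s (n / r'.d) t') ≠ 0 := by
      rw [h4, h4', PSH.inn_zsmul_left, PSH.inn_zsmul_right, PSH.inn_b_b, if_pos hh, mul_one]
      rcases h1 with h | h <;> rcases h1' with h' | h' <;> rw [h, h'] <;> norm_num
    by_cases hrr : r = r'
    · subst hrr
      refine ⟨rfl, ?_⟩
      by_contra hne
      apply hinn
      rw [(HH r hr.2.1).2.ss (n / r.d) t t' ht ht', if_neg hne]
    · exact (hinn (PSH.HK.inn_s_s _ _ hr.2.1 hr'.2.1 hrr _ _ _ _ ht ht')).elim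
  · intro i hi hne
    have h1 := part_expand ι hι n hn (hK.mono (by omega)) R hR oneT isPrim_oneT
    have h2 : ip n oneT (ch i) = ∑ a ∈ Finset.range (Nat.card F ^ n - 1),
        (1 / (n : ℂ) * ip n oneT (R a)) * ip n (R a) (ch i) := by
      rw [← ip_part_left, h1, ip_sum_left]
      apply Finset.sum_congr rfl
      intro a _
      rw [ip_smul_left, ip_part_left]
    rw [h2] at hne
    obtain ⟨a, ha, hane⟩ := Finset.exists_ne_zero_of_sum_ne_zero hne
    have h3 : ip n (R a) (ch i) ≠ 0 := fun h => hane (by rw [h, mul_zero])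
    rw [Finset.mem_range] at ha
    obtain ⟨hr, h7, h8⟩ := hρ a ha
    have hd : (ρ a).d ∣ n := h7 ▸ hsa a
    refine ⟨ρ a, ?_, ?_⟩
    · rw [Finset.mem_filter, mem_idxLE]
      exact ⟨hle hd, hr, hd⟩
    -- inner product with p
    have h9 : (PG F).inn (RA R n a) ((PG F).b i) ≠ 0 := by
      have h := inn_eq_ip n (RA R n a) ((PG F).b i)
        (RA_isHom ι (2 * n) hK R hR n a (by omega))
      have hb : (((PG F).b i : AA F) : CF F) = ch i := bas_coe i
      rw [RA_coe ι (2 * n) hK R hR n a (by omega), ip_part_left, hb] at h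
      intro h0
      rw [h0] at h
      exact h3 (by rw [← h]; simp)
    have h10 : (PG F).inn ((HH (ρ a) hr).2.p (n / (ρ a).d)) ((PG F).b i) ≠ 0 := by
      rcases h8 with h8 | h8
      · rw [← h8]; exact h9
      · rw [h8, PSH.inn_neg_left] at h9
        exact neg_ne_zero.1 h9
    rw [(HH (ρ a) hr).2.ps _ (Nat.div_pos (hle hd) hr.1), PSH.inn_sum_left] at h10
    obtain ⟨t, ht, htne⟩ := Finset.exists_ne_zero_of_sum_ne_zero h10
    rw [Finset.mem_range] at ht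
    refine ⟨t, ht, ?_⟩
    obtain ⟨-, -, h3', h4', -, -⟩ := hχ (ρ a) hr hd t ht
    rw [PSH.neg_one_pow_mul, PSH.inn_zsmul_left, h4', PSH.inn_zsmul_left, PSH.inn_b_b] at htne
    by_contra hcon
    rw [if_neg hcon] at htne
    simp at htne
  · intro a ha
    obtain ⟨hr, h7, h8⟩ := hρ a ha
    have hd : (ρ a).d ∣ n := h7 ▸ hsa a
    refine ⟨?_, h7⟩
    rw [Finset.mem_filter, mem_idxLE]
    exact ⟨hle hd, hr, hd⟩
  · intro r hr
    rw [Finset.mem_filter] at hr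
    rw [← id2 r hr.2.1 hr.2.2]
    apply Nat.card_congr
    apply Equiv.subtypeEquivRight
    intro a
    constructor
    · rintro ⟨ha, har⟩
      obtain ⟨hr', h7, h8⟩ := hρ a ha
      subst har
      exact ⟨ha, h8⟩
    · rintro ⟨ha, h⟩
      obtain ⟨hr', h7, h8⟩ := hρ a ha
      have hd : (ρ a).d ∣ n := h7 ▸ hsa a
      exact ⟨ha, huniq a (ρ a) r hr' hr.2.1 hd hr.2.2 h8 h⟩

end Pool.Agent.REll
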