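import Pool.Agent.Lib_helper45.REll.Defs3

/-!
# Two ring homomorphisms on the ring of virtual characters
-/

open scoped BigOperators ComplexConjugate
open Polynomial

namespace Pool.Agent.REll
namespace UD
variable {F : Type} [Field F] [Finite F]

open CF

theorem bcoe (i : Idx F) : (((PG F).b i : AA F) : CF F) = ch i := bas_coe i

/-- an additive multiplicative family of functionals gives a ring homomorphism -/
theorem exists_hom (ψ : ℕ → CF F → ℂ) (hadd : ∀ n f h, ψ n (f + h) = ψ n f + ψ n h)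
    (hone : ψ 0 1 = 1)
    (hmul : ∀ a b f h, f.IsHom a → h.IsHom b → ψ (a + b) (f * h) = ψ a f * ψ b h) :
    ∃ D : AA F →+* ℂ, ∀ (n : ℕ) (x : AA F), (x : CF F).IsHom n → D x = ψ n (x : CF F) := by
  classical
  let Ψ : ℕ → (CF F →+ ℂ) := fun n => AddMonoidHom.mk' (ψ n) (hadd n)
  let L : AA F →ₗ[ℤ] ℂ := (bas F).constr ℤ (fun i => ψ i.d (ch i))
  have hL : ∀ (n : ℕ) (x : AA F), (x : CF F).IsHom n → L x = ψ n (x : CF F) := by
    intro n x hx
    have h1 : x = ∑ i ∈ ((bas F).repr x).support, (bas F).repr x i • (bas F) i := by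
      conv_lhs => rw [← (bas F).linearCombination_repr x]
      rfl
    have hd : ∀ i ∈ ((bas F).repr x).support, i.d = n := by
      intro i hi
      by_contra hne
      have h2 : ip i.d (x : CF F) (ch i) = 0 := ip_eq_zero_of_hom (Ne.symm hne) hx _
      have h3 : (x : CF F) = ∑ j ∈ ((bas F).repr x).support, (bas F).repr x j • ch j := by
        conv_lhs => rw [h1]
        push_cast
        exact Finset.sum_congr rfl (fun j _ => by rw [bas_coe])
      rw [h3, ip_sum_left, Finset.sum_eq_single_of_mem i hi] at h2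
      · rw [ip_zsmul_left, ip_ch, if_pos rfl, mul_one] at h2
        exact (Finsupp.mem_support_iff.1 hi) (by exact_mod_cast h2)
      · intro j _ hj
        rw [ip_zsmul_left]
        by_cases hji : j.d = i.d
        · rw [ip_irr (hji ▸ ch_irr j) (ch_irr i), if_neg (fun h => hj (ch_injective h)), mul_zero]
        · rw [ip_eq_zero_of_hom hji (ch_hom j), mul_zero]
    have h2 : ψ n (x : CF F) =
        ∑ i ∈ ((bas F).repr x).support, (bas F).repr x i • ψ n (ch i) := by
      show Ψ n (x : CF F) = _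
      conv_lhs => rw [h1]
      push_cast
      rw [map_sum]
      apply Finset.sum_congr rfl
      intro i _
      rw [map_zsmul, bas_coe]
      rfl
    rw [h2]
    conv_lhs => rw [h1]
    rw [map_sum]
    apply Finset.sum_congr rfl
    intro i hi
    rw [map_zsmul, Module.Basis.constr_basis, hd i hi]
  have hhom : ∀ i j : Idx F, L ((bas F) i * (bas F) j) = L ((bas F) i) * L ((bas F) j) := by
    intro i j
    have hij : (((bas F) i * (bas F) j : AA F) : CF F) = ch i * ch j := by
      push_cast; rw [bas_coe, bas_coe]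
    rw [hL (i.d + j.d) _ (by rw [hij]; exact (ch_hom i).mul (ch_hom j)),
      hL i.d ((bas F) i) (by rw [bas_coe]; exact ch_hom i),
      hL j.d ((bas F) j) (by rw [bas_coe]; exact ch_hom j), hij, bas_coe, bas_coe]
    exact hmul _ _ _ _ (ch_hom i) (ch_hom j)
  have hmulL : ∀ x y : AA F, L (x * y) = L x * L y := by
    intro x y
    have h : (LinearMap.mul ℤ (AA F)).compr₂ L = (LinearMap.mul ℤ ℂ).compl₁₂ L L := by
      apply (bas F).ext
      intro i
      apply (bas F).ext
      intro j
      exact hhom i j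
    have := congrArg (fun φ => φ x y) h
    simpa using this
  have h1L : L 1 = 1 := by
    rw [hL 0 1 (by exact isHom_one)]
    exact hone
  refine ⟨{ toFun := L, map_one' := h1L, map_mul' := hmulL, map_zero' := map_zero L,
            map_add' := map_add L }, ?_⟩
  intro n x hx
  exact hL n x hx

theorem ch_integral (i : Idx F) (V : Type) [AddCommGroup V] [Module F V] [Finite V]
    (g : V ≃ₗ[F] V) : IsIntegral ℤ (ch i V g) := by
  by_cases h : Module.finrank F V = i.d
  · obtain ⟨e⟩ := exists_std (F := F) V h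
    rw [apply_toStd e g (ch i)]
    obtain ⟨d, ρ, -, hρ⟩ := (ch_irr i).2
    have := congrFun hρ (toStd e g)
    rw [this]
    exact character_isIntegral ρ _
  · rw [ch_hom i V g h]
    exact isIntegral_zero

omit [Finite F] in
theorem monic_unip (n : ℕ) : ((X - 1 : F[X]) ^ n).Monic := by
  have : (X - 1 : F[X]) = X - C 1 := by simp
  rw [this]
  exact (monic_X_sub_C 1).pow n

omit [Finite F] in
theorem natDegree_unip (n : ℕ) : ((X - 1 : F[X]) ^ n).natDegree = n := by
  have : (X - 1 : F[X]) = X - C 1 := by simp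
  rw [this, natDegree_pow, natDegree_X_sub_C, mul_one]

omit [Finite F] in
theorem coeff_unip (n : ℕ) : ((X - 1 : F[X]) ^ n).coeff 0 ≠ 0 := by
  rw [coeff_zero_eq_eval_zero]
  simp

theorem val_add (f h : CF F) (P : F[X]) : val (f + h) P = val f P + val h P := by
  unfold val
  split_ifs with hP
  · rfl
  · simp

/-- `val` at a cyclic pair; there is always one -/
theorem exists_val (P : F[X]) (hP : P.Monic) (h0 : P.coeff 0 ≠ 0) :
    ∃ g : G F P.natDegree, ∀ k : CF F, val k P = k _ g := by
  obtain ⟨g, hg, v, hv⟩ := exists_cyc P hP h0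
  refine ⟨g, fun k => ?_⟩
  rw [val_eq k g v hv, hg]

theorem val_hom (f : CF F) (a : ℕ) (hf : f.IsHom a) (P : F[X]) (hP : P.Monic)
    (h0 : P.coeff 0 ≠ 0) (hd : P.natDegree ≠ a) : val f P = 0 := by
  obtain ⟨g, hg⟩ := exists_val P hP h0
  rw [hg]
  apply hf
  simpa using hd

theorem val_unip_mul (a b : ℕ) (f h : CF F) (hf : f.IsHom a) :
    val (f * h) ((X - 1 : F[X]) ^ (a + b)) =
      val f ((X - 1 : F[X]) ^ a) * val h ((X - 1 : F[X]) ^ b) := by
  rw [val_mul f h _ (monic_unip _) (coeff_unip _)]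
  have hdvd : (X - 1 : F[X]) ^ a ∣ (X - 1 : F[X]) ^ (a + b) := pow_dvd_pow _ (Nat.le_add_right _ _)
  rw [finsum_eq_single _ ⟨(X - 1 : F[X]) ^ a, monic_unip a, hdvd⟩]
  · have h1 : (X - 1 : F[X]) ^ (a + b) /ₘ (X - 1 : F[X]) ^ a = (X - 1 : F[X]) ^ b := by
      rw [pow_add, mul_divByMonic_cancel_left _ (monic_unip a)]
    show val f ((X - 1 : F[X]) ^ a) * val h ((X - 1 : F[X]) ^ (a + b) /ₘ (X - 1 : F[X]) ^ a) = _
    rw [h1]
  · rintro ⟨D, hD, hDd⟩ hne
    have hX : (X - 1 : F[X]) = X - C 1 := by simp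
    have hprime : Prime (X - 1 : F[X]) := by rw [hX]; exact prime_X_sub_C 1
    obtain ⟨j, hj, hass⟩ := (dvd_prime_pow hprime _).1 hDd
    have hDe : D = (X - 1 : F[X]) ^ j := eq_of_monic_of_associated hD (monic_unip j) hass
    have hja : j ≠ a := by
      rintro rfl
      exact hne (Subtype.ext hDe)
    have h0 : val f D = 0 := by
      rw [hDe]
      exact val_hom f a hf _ (monic_unip j) (coeff_unip j) (by rw [natDegree_unip]; exact hja)
    rw [h0, zero_mul]

theorem exists_ups (F : Type) [Field F] [Finite F] : ∃ U : AA F →+* ℂ,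
    (∀ (n : ℕ) (x : AA F), (x : CF F).IsHom n → U x = val (x : CF F) ((X - 1 : F[X]) ^ n)) ∧
    (∀ i, IsIntegral ℤ (U ((PG F).b i))) := by
  have hone : val (1 : CF F) ((X - 1 : F[X]) ^ 0) = 1 := by
    obtain ⟨g, hg⟩ := exists_val ((X - 1 : F[X]) ^ 0) (monic_unip _) (coeff_unip _)
    rw [hg, one_apply, if_pos]
    rw [Module.finrank_fin_fun, natDegree_unip]
  obtain ⟨U, hU⟩ := exists_hom (F := F) (fun n f => val f ((X - 1 : F[X]) ^ n))
    (fun n f h => val_add f h _) hone (fun a b f h hf _ => val_unip_mul a b f h hf)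
  refine ⟨U, hU, ?_⟩
  intro i
  rw [hU i.d _ (by rw [bcoe]; exact ch_hom i), bcoe]
  obtain ⟨g, hg⟩ := exists_val ((X - 1 : F[X]) ^ i.d) (monic_unip _) (coeff_unip _)
  show IsIntegral ℤ (val (ch i) ((X - 1 : F[X]) ^ i.d))
  rw [hg]
  exact ch_integral i _ g

theorem exists_dl (F : Type) [Field F] [Finite F] : ∃ D : AA F →+* ℂ,
    ∀ (n : ℕ) (x : AA F), (x : CF F).IsHom n → D x = dl n (x : CF F) := by
  apply exists_hom (F := F) dl
  · intro n f h
    unfold dl
    rw [CF.add_apply, add_div]
  · unfold dl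
    rw [one_apply, if_pos (by simp)]
    simp
  · intro a b f h hf _
    rw [dl_mul, Finset.sum_eq_single a]
    · rw [Nat.add_sub_cancel_left]
    · intro a' _ ha'
      have : dl a' f = 0 := by
        unfold dl
        rw [hf _ _ (by simpa using ha'), zero_div]
      rw [this, zero_mul]
    · intro h'
      exact (h' (Finset.mem_range.2 (by omega))).elim

theorem val_R_unip {K : Type} [Field K] [Finite K] [Algebra F K]
    (θ : MulChar K ℂ) (R : CF F) (hR : R * allOne = Bf K θ) (n : ℕ) (hn : 1 ≤ n)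
    (hK : Big F n K) : val (part n R) ((X - 1 : F[X]) ^ n) = 1 := by
  classical
  obtain ⟨g, hg⟩ := exists_val ((X - 1 : F[X]) ^ n) (monic_unip _) (coeff_unip _)
  rw [hg, part_apply, if_pos (by rw [Module.finrank_fin_fun, natDegree_unip]), ← hg,
    val_R θ R hR n hK _ (monic_unip n) (coeff_unip n) (by rw [natDegree_unip])]
  unfold lam
  have hX : (X - 1 : F[X]) = X - C 1 := by simp
  have hprime : Prime (X - 1 : F[X]) := by rw [hX]; exact prime_X_sub_C 1
  rw [if_pos ⟨X - 1, n, hprime, by omega, rfl⟩]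
  have hmap : ((X - 1 : F[X]) ^ n).map (algebraMap F K) = (X - C 1) ^ n := by simp
  have hroots : (((X - 1 : F[X]) ^ n).map (algebraMap F K)).roots.toFinset = {1} := by
    rw [hmap, roots_pow, roots_X_sub_C, Multiset.toFinset_nsmul _ n (by omega)]
    simp
  rw [hroots, Finset.sum_singleton, map_one]

end UD
end Pool.Agent.REll
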