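import Pool.Agent.Lib_helper97.REll_ERR
import Pool.Agent.Lib_helper53.REll_RB

open scoped BigOperators ComplexConjugate
open Polynomial

namespace Pool.Agent.REll
variable {F : Type} [Field F] [Finite F] {K : Type} [Field K] [Finite K] [Algebra F K]

open CF

theorem ip_R_R_orb (ι : MulChar K ℂ) (hι : IsGen ι) (m : ℕ) (hm : 1 ≤ m) (hK : Big F m K)
    (a b : ℕ) (R R' : CF F) (hR : R * allOne = Bf K (ι ^ a)) (hR' : R' * allOne = Bf K (ι ^ b)) :
    ip m R R' = (orb (Nat.card F) m a b : ℂ) :=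
  ERR.ip_R_R_orb ι hι m hm hK a b R R' hR hR'

end Pool.Agent.REll
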