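import Pool.Agent.Lib_helper45.REll.PSHThm
import Pool.Agent.Lib_helper95.REll.A2
import Pool.Agent.Lib_helper53.REll_INV
import Pool.Agent.Lib_helper89.REll_ADJ
import Pool.Agent.Lib_helper15.REll_DELTA
import Pool.Agent.Lib_helper55.REll_HOPF
import Pool.Agent.Lib_helper15.REll_BADD
import Pool.Agent.Lib_helper53.REll_PRIM
import Pool.Agent.Lib_helper15.REll_CYC
import Pool.Agent.Lib_helper15.REll_VALR
import Pool.Agent.Lib_helper15.REll_GAM
import Pool.Agent.Lib_helper53.REll_ORTH
import Pool.Agent.Lib_helper97.REll_KF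
import Pool.Agent.Lib_helper55.REll_RT1
import Pool.Agent.Lib_helper97.REll_RT2
import Pool.Agent.Lib_helper89.REll_MULT
import Pool.Agent.Lib_helper25.REll_NUM
import Pool.Agent.Lib_helper95.REll.IND
import Pool.Agent.Lib_helper15.REll_COMP
import Pool.Agent.Lib_helper89.REll_INTP
import Pool.Agent.Lib_helper25.REll_INTL
import Pool.Agent.Lib_helper15.REll_INT

/-!
# All blocks
-/

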