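import Pool.Agent.Lib_helper53.REll_PARS
import Pool.Agent.Lib_helper11.REll.INTR
import Pool.Agent.Lib_helper11.REll.NWT
import Pool.Agent.Lib_helper24.REll_TAU
import Pool.Agent.Lib_helper24.REll_DLR
import Pool.Agent.Lib_helper15.REll_SIGN
import Pool.Agent.Lib_helper15.REll_INN
import Pool.Agent.Lib_helper45.REll.UD
import Pool.Agent.Lib_helper45.REll.Ident

/-!
# All blocks, second batch
-/

open scoped BigOperators ComplexConjugate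
open Polynomial

namespace Pool.Agent.REll
variable {F : Type} [Field F] [Finite F] {K : Type} [Field K] [Finite K] [Algebra F K]

open CF

theorem part_expand (ι : MulChar K ℂ) (hι : IsGen ι) (m : ℕ) (hm : 1 ≤ m) (hK : Big F m K)
    (R : ℕ → CF F) (hR : ∀ a, R a * allOne = Bf K (ι ^ a)) (k : CF F) (hk : IsPrim k) :
    part m k = ∑ a ∈ Finset.range (Nat.card F ^ m - 1), (1 / (m : ℂ) * ip m k (R a)) •
      part m (R a) :=
  part_expand' ι hι m hm hK R hR k hk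

theorem parseval (ι : MulChar K ℂ) (hι : IsGen ι) (m : ℕ) (hm : 1 ≤ m) (hK : Big F m K)
    (R : ℕ → CF F) (hR : ∀ a, R a * allOne = Bf K (ι ^ a)) (k : CF F) (hk : IsPrim k) :
    (m : ℂ) * ip m k k = ∑ a ∈ Finset.range (Nat.card F ^ m - 1),
      ip m k (R a) * conj (ip m k (R a)) :=
  parseval' ι hι m hm hK R hR k hk

theorem part_R_mem (θ : MulChar K ℂ) (R : CF F) (hR : R * allOne = Bf K θ) (m : ℕ)
    (hK : Big F m K) : part m R ∈ AA F :=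
  part_R_mem' θ R hR m hK

theorem exists_ups (F : Type) [Field F] [Finite F] : ∃ U : AA F →+* ℂ,
    (∀ (n : ℕ) (x : AA F), (x : CF F).IsHom n → U x = val (x : CF F) ((X - 1 : F[X]) ^ n)) ∧
    (∀ i, IsIntegral ℤ (U ((PG F).b i))) :=
  UD.exists_ups F

theorem exists_dl (F : Type) [Field F] [Finite F] : ∃ D : AA F →+* ℂ,
    ∀ (n : ℕ) (x : AA F), (x : CF F).IsHom n → D x = dl n (x : CF F) :=
  UD.exists_dl F

theorem val_R_unip (θ : MulChar K ℂ) (R : CF F) (hR : R * allOne = Bf K θ) (n : ℕ) (hn : 1 ≤ n)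
    (hK : Big F n K) : val (part n R) ((X - 1 : F[X]) ^ n) = 1 :=
  UD.val_R_unip θ R hR n hn hK

end Pool.Agent.REll

namespace Pool.Agent.REll.PSH
universe u v
variable {I : Type u} {A : Type v} [CommRing A] (P : PSH I A)

theorem ident (q m : ℕ) (hq : 2 ≤ q) (hm : 1 ≤ m) (R : ℕ → ℕ → A)
    (hRp : ∀ s a, 1 ≤ s → s ≤ m → P.Prim (R s a))
    (hRh : ∀ s a, 1 ≤ s → s ≤ m → P.Hom s (R s a))
    (hRR : ∀ s a b, 1 ≤ s → s ≤ m → P.inn (R s a) (R s b) = (orb q s a b : ℤ))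
    (hpars : ∀ x, P.Prim x → P.Hom m x → (m : ℤ) * P.inn x x =
      ∑ a ∈ Finset.range (q ^ m - 1), P.inn x (R m a) ^ 2)
    (pf hf : I → A)
    (hp : ∀ r, P.PrimIdx r → P.deg r ∣ m → P.Prim (pf r) ∧ P.Hom m (pf r))
    (hpp : ∀ r, P.PrimIdx r → P.deg r ∣ m → P.inn (pf r) (pf r) = (m / P.deg r : ℕ))
    (hpo : ∀ r r', P.PrimIdx r → P.PrimIdx r' → P.deg r ∣ m → P.deg r' ∣ m → r ≠ r' →
      P.inn (pf r) (pf r') = 0)
    (hph : ∀ r, P.PrimIdx r → P.deg r ∣ m → ∀ x, P.Prim x →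
      P.inn x (pf r) = (m / P.deg r : ℕ) * P.inn x (hf r)) :
    (∀ a < q ^ m - 1, ∃ r, P.PrimIdx r ∧ P.deg r = sa q m a ∧
      (R m a = pf r ∨ R m a = - pf r)) ∧
    (∀ r, P.PrimIdx r → P.deg r ∣ m →
      Nat.card {a : ℕ // a < q ^ m - 1 ∧ (R m a = pf r ∨ R m a = - pf r)} = P.deg r) :=
  P.ident_proof q m hq hm R hRp hRh hRR hpars pf hf hp hpp hpo hph

theorem sign {r : I} (hr : P.PrimIdx r) (N : ℕ) (hN : 2 * P.deg r ≤ N) (U : A →+* ℂ)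
    (hU : ∀ i, IsIntegral ℤ (U (P.b i))) (R : ℕ → ℕ → A)
    (hUR : ∀ m a, 1 ≤ m → m ≤ N → U (R m a) = 1)
    (hid : ∀ i₂ (H : P.HK r i₂) (m : ℕ), 1 ≤ m → m * P.deg r ≤ N →
      ∃ a, R (m * P.deg r) a = H.p m ∨ R (m * P.deg r) a = - H.p m) :
    ∃ (i₂ : I) (H : P.HK r i₂) (u : ℤ), (u = 1 ∨ u = -1) ∧ ∀ m a, 1 ≤ m → m * P.deg r ≤ N →
      (R (m * P.deg r) a = H.p m ∨ R (m * P.deg r) a = - H.p m) →
      H.p m = u ^ m • R (m * P.deg r) a :=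
  P.sign_proof hr N hN U hU R hUR hid

theorem hook_eval {r i₂ : I} (H : P.HK r i₂) (D : A →+* ℂ) (u : ℤ) (d : ℕ → ℚ)
    (m : ℕ) (hd : ∀ j, 1 ≤ j → j ≤ m → D (H.p j) = (u : ℂ) ^ j * (d j : ℂ)) (t : ℕ) (ht : t < m) :
    D (H.s m t) = (u : ℂ) ^ m * (nS d m t : ℂ) :=
  P.hook_eval' H D u d m hd t ht

theorem hook_lin {r i₂ : I} (hr : P.PrimIdx r) (H : P.HK r i₂) (L : A →+ ℂ)
    (hL : ∀ i j, i ≠ P.one → j ≠ P.one → L (P.b i * P.b j) = 0)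
    (m : ℕ) (t : ℕ) (ht : t < m) :
    (m : ℂ) * L (H.s m t) = (-1) ^ t * L (H.p m) :=
  P.hook_lin' hr H L hL m t ht

end Pool.Agent.REll.PSH
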